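import Mathlib

set_option autoImplicit false

open MeasureTheory Filter Topology Set

namespace Pool.Agent.H173Z.Canc

section AEC
variable {X : Type*} [TopologicalSpace X] [MeasureSpace X]

/-- `f` is locally constant at almost every point. -/
def AEC {β : Type*} (f : X → β) : Prop := ∀ᵐ x, ∀ᶠ y in 𝓝 x, f y = f x

theorem AEC.const {β : Type*} (c : β) : AEC (fun _ : X => c) :=
  Eventually.of_forall fun _ => Eventually.of_forall fun _ => rfl

theorem AEC.comp {β γ : Type*} {f : X → β} (hf : AEC f) (g : β → γ) :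
    AEC (fun x => g (f x)) := by
  filter_upwards [hf] with x hx
  filter_upwards [hx] with y hy
  rw [hy]

theorem AEC.comp₂ {β γ δ : Type*} {f : X → β} {g : X → γ} (hf : AEC f) (hg : AEC g)
    (h : β → γ → δ) : AEC (fun x => h (f x) (g x)) := by
  filter_upwards [hf, hg] with x hx hx'
  filter_upwards [hx, hx'] with y hy hy'
  rw [hy, hy']

theorem AEC.select {Γ β : Type*} [Countable Γ] {π : X → Γ} (hπ : AEC π) {F : Γ → X → β}
    (hF : ∀ a, AEC (F a)) : AEC (fun x => F (π x) x) := by
  have h := ae_all_iff.2 hF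
  filter_upwards [hπ, h] with x hx hx'
  filter_upwards [hx, hx' (π x)] with y hy hy'
  rw [hy, hy']

theorem AEC.precomp {Y β : Type*} [TopologicalSpace Y] [MeasureSpace Y] {f : Y → β}
    (hf : AEC f) {φ : X → Y} (hc : Continuous φ)
    (hq : Measure.QuasiMeasurePreserving φ volume volume) : AEC (fun x => f (φ x)) := by
  filter_upwards [hq.ae hf] with x hx
  exact (hc.tendsto x).eventually hx

theorem AEC.pi {ι : Type*} [Finite ι] {β : ι → Type*} {f : ∀ i, X → β i}
    (hf : ∀ i, AEC (f i)) : AEC (fun x i => f i x) := by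
  have h := ae_all_iff.2 hf
  filter_upwards [h] with x hx
  filter_upwards [eventually_all.2 hx] with y hy
  exact funext hy

theorem AEC.sum {ι β : Type*} [AddCommMonoid β] (s : Finset ι) {f : ι → X → β}
    (hf : ∀ i, AEC (f i)) : AEC (fun x => ∑ i ∈ s, f i x) := by
  classical
  induction s using Finset.induction_on with
  | empty => simpa using AEC.const (0 : β)
  | insert a s ha ih =>
    simp only [Finset.sum_insert ha]
    exact (hf a).comp₂ ih (· + ·)

theorem AEC.aemeasurable [OpensMeasurableSpace X] {β : Type*} [MeasurableSpace β]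
    [TopologicalSpace β] [BorelSpace β] {f : X → β} (hf : AEC f) : AEMeasurable f volume := by
  have hU : IsOpen {x | ∀ᶠ y in 𝓝 x, f y = f x} := by
    rw [isOpen_iff_mem_nhds]
    intro x hx
    filter_upwards [hx.eventually_nhds, hx] with y hy hy'
    filter_upwards [hy] with z hz
    rw [hz, hy']
  have hc : ContinuousOn f {x | ∀ᶠ y in 𝓝 x, f y = f x} := by
    intro x hx
    refine ContinuousAt.continuousWithinAt ?_
    exact (continuousAt_const (y := f x)).congr (hx.mono fun y hy => hy.symm)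
  have := hc.aemeasurable (μ := volume) hU.measurableSet
  have e : (volume : Measure X).restrict {x | ∀ᶠ y in 𝓝 x, f y = f x} = volume :=
    Measure.restrict_eq_self_of_ae_mem hf
  rwa [e] at this

theorem AEC.mem {s : Set X} (hs : volume (frontier s) = 0) : AEC (fun x => x ∈ s) := by
  have : ∀ᵐ x, x ∉ frontier s := measure_eq_zero_iff_ae_notMem.1 hs
  filter_upwards [this] with x hx
  by_cases h : x ∈ s
  · have hi : x ∈ interior s := by
      by_contra hi
      exact hx ⟨subset_closure h, hi⟩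
    filter_upwards [mem_interior_iff_mem_nhds.1 hi] with y hy
    exact propext ⟨fun _ => h, fun _ => hy⟩
  · have hi : x ∉ closure s := by
      intro hi
      exact hx ⟨hi, fun h' => h (interior_subset h')⟩
    filter_upwards [isClosed_closure.isOpen_compl.mem_nhds hi] with y hy
    exact propext ⟨fun h' => (hy (subset_closure h')).elim, fun h' => (h h').elim⟩

open Classical in
theorem AEC.find {P : ℕ → X → Prop} (hP : ∀ m, AEC (P m)) (he : ∀ᵐ x, ∃ m, P m x) :
    AEC (fun x => if h : ∃ m, P m x then Nat.find h else 0) := by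
  have h := ae_all_iff.2 hP
  filter_upwards [h, he] with x hx hex
  have h1 : ∀ᶠ y in 𝓝 x, ∀ m ∈ Finset.range (Nat.find hex + 1), P m y = P m x :=
    (Finset.eventually_all _).2 fun m _ => hx m
  filter_upwards [h1] with y hy
  have hy0 : P (Nat.find hex) y := by
    rw [hy _ (Finset.mem_range.2 (Nat.lt_succ_self _))]
    exact Nat.find_spec hex
  have hey : ∃ m, P m y := ⟨_, hy0⟩
  rw [dif_pos hex, dif_pos hey, Nat.find_eq_iff]
  refine ⟨hy0, fun m hm => ?_⟩
  rw [hy m (Finset.mem_range.2 (by omega))]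
  exact Nat.find_min hex hm

theorem aec_sInf {P : ℕ → X → Prop} (hP : ∀ m, AEC (P m)) (he : ∀ᵐ x, ∃ m, P m x) :
    AEC (fun x => sInf {m | P m x}) := by
  have h := AEC.find hP he
  have e : ∀ x, sInf {m | P m x} =
      (open Classical in if h : ∃ m, P m x then Nat.find h else 0) := by
    intro x
    by_cases hx : ∃ m, P m x
    · rw [dif_pos hx]
      exact le_antisymm (Nat.sInf_le (by classical exact Nat.find_spec hx))
        (by classical exact Nat.find_min' hx (Nat.sInf_mem hx))
    · rw [dif_neg hx, Nat.sInf_eq_zero]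
      right
      ext m
      exact ⟨fun h => hx ⟨m, h⟩, fun h => h.elim⟩
  simp only [e]
  exact h

end AEC

theorem aec_floor : AEC (fun x : ℝ => ⌊x⌋) := by
  have h0 : ∀ᵐ x : ℝ, x ∉ range ((↑) : ℤ → ℝ) :=
    measure_eq_zero_iff_ae_notMem.1 ((countable_range _).measure_zero _)
  filter_upwards [h0] with x hx
  have h1 : (⌊x⌋ : ℝ) < x := lt_of_le_of_ne (Int.floor_le x) fun h => hx ⟨_, h⟩
  filter_upwards [Ioo_mem_nhds h1 (Int.lt_floor_add_one x)] with y hy
  exact Int.floor_eq_iff.2 ⟨hy.1.le, hy.2⟩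

theorem qmp_affine (a b : ℝ) (ha : a ≠ 0) :
    Measure.QuasiMeasurePreserving (fun x : ℝ => a * x + b) volume volume := by
  have h1 : Measure.QuasiMeasurePreserving (fun x : ℝ => a * x) volume volume := by
    refine ⟨measurable_const_mul a, ?_⟩
    rw [Real.map_volume_mul_left ha]
    exact Measure.smul_absolutelyContinuous
  exact (measurePreserving_add_right volume b).quasiMeasurePreserving.comp h1

theorem aec_floor_affine (a b : ℝ) (ha : a ≠ 0) : AEC (fun x : ℝ => ⌊a * x + b⌋) :=
  aec_floor.precomp (by fun_prop) (qmp_affine a b ha)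

/-! Lattice Poincare lemmas with values in any abelian group. -/

theorem poin1 {A : Type*} [AddCommGroup A] (u : ℤ → A) :
    ∃ g : ℤ → A, ∀ a, g (a + 1) - g a = u a := by
  refine ⟨fun a => if 0 ≤ a then ∑ i ∈ Finset.range a.toNat, u i
    else - ∑ i ∈ Finset.range (-a).toNat, u (-(i + 1 : ℕ)), fun a => ?_⟩
  rcases lt_trichotomy a (-1) with h | h | h
  · obtain ⟨n, rfl⟩ : ∃ n : ℕ, a = -(n + 2 : ℕ) := ⟨(-a - 2).toNat, by omega⟩
    have e1 : (-(-((n + 2 : ℕ) : ℤ) + 1)).toNat = n + 1 := by omega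
    have e2 : (-(-((n + 2 : ℕ) : ℤ))).toNat = n + 2 := by omega
    simp only [if_neg (show ¬ (0 : ℤ) ≤ -((n + 2 : ℕ) : ℤ) + 1 by omega),
      if_neg (show ¬ (0 : ℤ) ≤ -((n + 2 : ℕ) : ℤ) by omega), e1, e2]
    rw [Finset.sum_range_succ _ (n + 1)]
    abel
  · subst h
    simp
  · obtain ⟨n, rfl⟩ : ∃ n : ℕ, a = n := ⟨a.toNat, by omega⟩
    have e1 : ((n : ℤ) + 1).toNat = n + 1 := by omega
    simp only [if_pos (show (0 : ℤ) ≤ (n : ℤ) + 1 by omega),
      if_pos (show (0 : ℤ) ≤ (n : ℤ) by omega), e1, Int.toNat_natCast]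
    rw [Finset.sum_range_succ]
    abel

theorem const_of_step {A : Type*} (v : ℤ → A) (h : ∀ a, v (a + 1) = v a) (a : ℤ) :
    v a = v 0 := by
  induction a using Int.induction_on with
  | zero => rfl
  | succ n ih => rw [h, ih]
  | pred n ih =>
    rw [← ih, ← h (-(n : ℤ) - 1)]
    congr 1
    ring

theorem poin2 {A : Type*} [AddCommGroup A] (u v : ℤ → ℤ → A)
    (h : ∀ a b, v (a + 1) b - v a b = u a (b + 1) - u a b) :
    ∃ g : ℤ → ℤ → A, (∀ a b, g (a + 1) b - g a b = u a b) ∧
      (∀ a b, g a (b + 1) - g a b = v a b) := by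
  obtain ⟨g0, hg0⟩ := poin1 (A := ℤ → A) u
  have hg0' : ∀ a b, g0 (a + 1) b - g0 a b = u a b := fun a b => congrFun (hg0 a) b
  have hc : ∀ b a, v a b - (g0 a (b + 1) - g0 a b) = v 0 b - (g0 0 (b + 1) - g0 0 b) := by
    intro b
    refine const_of_step (fun a => v a b - (g0 a (b + 1) - g0 a b)) fun a => ?_
    have e1 := h a b
    have e2 := hg0' a b
    have e3 := hg0' a (b + 1)
    linear_combination (norm := abel) e1 - e3 + e2
  obtain ⟨g1, hg1⟩ := poin1 (fun b => v 0 b - (g0 0 (b + 1) - g0 0 b))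
  refine ⟨fun a b => g0 a b + g1 b, fun a b => ?_, fun a b => ?_⟩
  · have e := hg0' a b
    beta_reduce
    linear_combination (norm := abel) e
  · have e1 := hc b a
    have e2 := hg1 b
    beta_reduce
    linear_combination (norm := abel) e2 - e1

theorem poin3 {A : Type*} [AddCommGroup A] (u v w : ℤ → ℤ → ℤ → A)
    (h12 : ∀ a b c, v (a + 1) b c - v a b c = u a (b + 1) c - u a b c)
    (h13 : ∀ a b c, w (a + 1) b c - w a b c = u a b (c + 1) - u a b c)
    (h23 : ∀ a b c, w a (b + 1) c - w a b c = v a b (c + 1) - v a b c) :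
    ∃ g : ℤ → ℤ → ℤ → A, (∀ a b c, g (a + 1) b c - g a b c = u a b c) ∧
      (∀ a b c, g a (b + 1) c - g a b c = v a b c) ∧
      (∀ a b c, g a b (c + 1) - g a b c = w a b c) := by
  obtain ⟨g0, h1, h2⟩ := poin2 (A := ℤ → A) u v fun a b => funext fun c => h12 a b c
  have h1' : ∀ a b c, g0 (a + 1) b c - g0 a b c = u a b c := fun a b c => congrFun (h1 a b) c
  have h2' : ∀ a b c, g0 a (b + 1) c - g0 a b c = v a b c := fun a b c => congrFun (h2 a b) c
  have hc1 : ∀ b c a, w a b c - (g0 a b (c + 1) - g0 a b c) =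
      w 0 b c - (g0 0 b (c + 1) - g0 0 b c) := by
    intro b c
    refine const_of_step (fun a => w a b c - (g0 a b (c + 1) - g0 a b c)) fun a => ?_
    have e1 := h13 a b c
    have e2 := h1' a b c
    have e3 := h1' a b (c + 1)
    linear_combination (norm := abel) e1 - e3 + e2
  have hc2 : ∀ c b, w 0 b c - (g0 0 b (c + 1) - g0 0 b c) =
      w 0 0 c - (g0 0 0 (c + 1) - g0 0 0 c) := by
    intro c
    refine const_of_step (fun b => w 0 b c - (g0 0 b (c + 1) - g0 0 b c)) fun b => ?_
    have e1 := h23 0 b c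
    have e2 := h2' 0 b c
    have e3 := h2' 0 b (c + 1)
    linear_combination (norm := abel) e1 - e3 + e2
  obtain ⟨g1, hg1⟩ := poin1 (fun c => w 0 0 c - (g0 0 0 (c + 1) - g0 0 0 c))
  refine ⟨fun a b c => g0 a b c + g1 c, fun a b c => ?_, fun a b c => ?_, fun a b c => ?_⟩
  · have e := h1' a b c
    beta_reduce
    linear_combination (norm := abel) e
  · have e := h2' a b c
    beta_reduce
    linear_combination (norm := abel) e
  · have e1 := hc1 b c a
    have e2 := hc2 c b
    have e3 := hg1 c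
    beta_reduce
    linear_combination (norm := abel) e3 - e1 - e2

end Pool.Agent.H173Z.Canc
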