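import Pool.Agent.H173Z.Canc.Mon

set_option autoImplicit false
set_option linter.unusedSectionVars false

open MeasureTheory Filter Topology Set
open scoped ENNReal

namespace Pool.Agent.H173Z.Canc

variable {n : ℕ}

/-- The grid cell of a point. -/
noncomputable def cell (δ : ℝ) (x : Eu n) : Fin n → ℤ := fun i => ⌊δ⁻¹ * x i⌋

theorem aec_cell {δ : ℝ} (hδ : 0 < δ) : AEC (cell (n := n) δ) := by
  refine AEC.pi (f := fun i (x : Eu n) => ⌊δ⁻¹ * x i⌋) fun i => ?_
  simpa using (aec_floor_affine δ⁻¹ 0 (inv_pos.2 hδ).ne').precomp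
    (EuclideanSpace.proj i : Eu n →L[ℝ] ℝ).continuous (qmp_coord i)

theorem cell_dist {δ : ℝ} (hδ : 0 < δ) {x y : Eu n} (h : cell δ x = cell δ y) :
    ‖x - y‖ ≤ (n + 1) * δ := by
  have h1 : ∀ i, ‖(x - y) i‖ ^ 2 ≤ δ ^ 2 := by
    intro i
    have h2 := Int.abs_sub_lt_one_of_floor_eq_floor (congrFun h i)
    rw [← mul_sub, abs_mul, abs_of_pos (inv_pos.2 hδ), inv_mul_lt_iff₀ hδ, mul_one] at h2
    rw [Real.norm_eq_abs]
    exact pow_le_pow_left₀ (abs_nonneg _) (by simpa using h2.le) 2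
  rw [EuclideanSpace.norm_eq, Real.sqrt_le_left (by positivity)]
  refine (Finset.sum_le_sum fun i _ => h1 i).trans ?_
  simp only [Finset.sum_const, Finset.card_univ, Fintype.card_fin, nsmul_eq_mul]
  have : (0 : ℝ) ≤ n := by positivity
  nlinarith [sq_nonneg δ, mul_nonneg this (sq_nonneg δ), mul_nonneg (mul_nonneg this this) (sq_nonneg δ)]

/-- The corner of a cell. -/
noncomputable def corner (δ : ℝ) (z : Fin n → ℤ) : Eu n := WithLp.toLp 2 fun i => δ * (z i : ℝ)

theorem cell_add {δ : ℝ} (hδ : 0 < δ) (x : Eu n) (z : Fin n → ℤ) :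
    cell δ (x + corner δ z) = cell δ x + z := by
  funext i
  simp only [cell, corner, PiLp.add_apply, Pi.add_apply]
  rw [mul_add, ← mul_assoc, inv_mul_cancel₀ hδ.ne', one_mul, Int.floor_add_intCast]

theorem cell_zero (δ : ℝ) : cell δ (0 : Eu n) = 0 := by
  funext i; simp [cell]

/-- Indicator of a cell. -/
noncomputable def cube (δ : ℝ) (z : Fin n → ℤ) (x : Eu n) : ℕ := if cell δ x = z then 1 else 0

theorem jn_cube {δ : ℝ} (hδ : 0 < δ) (z : Fin n → ℤ) : JN (cube δ z) := by
  refine ⟨(aec_cell hδ).comp (fun w => if w = z then 1 else 0), ⟨1, fun x => ?_⟩,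
    ‖corner δ z‖ + (n + 1) * δ, fun x hx => ?_⟩
  · unfold cube; split_ifs <;> simp
  · unfold cube
    rw [if_neg]
    intro h
    have h1 : cell δ (corner δ z) = z := by
      have := cell_add hδ 0 z
      rwa [zero_add, cell_zero, zero_add] at this
    have h2 := cell_dist hδ (h.trans h1.symm)
    have h3 := norm_add_le (x - corner δ z) (corner δ z)
    rw [sub_add_cancel] at h3
    linarith

theorem step_eqv {δ : ℝ} (hδ : 0 < δ) (σ : (Fin n → ℤ) → ℕ) (S : Finset (Fin n → ℤ))
    (hS : ∀ z, z ∉ S → σ z = 0) :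
    Eqv (fun x => σ (cell δ x)) (fun x => (∑ z ∈ S, σ z) * cube δ 0 x) := by
  have e1 : (fun x => σ (cell δ x)) = fun x => ∑ z ∈ S, σ z * cube δ z x := by
    funext x
    simp only [cube, mul_ite, mul_one, mul_zero, Finset.sum_ite_eq]
    split_ifs with h
    · rfl
    · exact hS _ h
  rw [e1]
  simp only [Finset.sum_mul]
  refine Eqv.sum S fun z => Eqv.base _ _ (IsometryEquiv.addRight (corner δ (-z)))
    ((jn_cube hδ z).mul _) ((jn_cube hδ 0).mul _) (Eventually.of_forall fun x => ?_)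
  have e2 : (IsometryEquiv.addRight (corner δ (-z))) x = x + corner δ (-z) := rfl
  simp only [cube, e2, cell_add hδ, add_neg_eq_zero]

theorem cell_fin {δ : ℝ} (hδ : 0 < δ) (ρ : ℝ) : ∃ S : Finset (Fin n → ℤ), ∀ y : Eu n,
    ‖y‖ ≤ ρ → cell δ y ∈ S := by
  refine ⟨Fintype.piFinset fun _ => Finset.Icc ⌊δ⁻¹ * (-ρ)⌋ ⌊δ⁻¹ * ρ⌋, fun y hy => ?_⟩
  rw [Fintype.mem_piFinset]
  intro i
  have h1 : |y i| ≤ ρ := (by simpa using PiLp.norm_apply_le y i : |y i| ≤ ‖y‖).trans hy
  have h2 := abs_le.1 h1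
  have h3 := inv_pos.2 hδ
  exact Finset.mem_Icc.2 ⟨Int.floor_mono (mul_le_mul_of_nonneg_left h2.1 h3.le),
    Int.floor_mono (mul_le_mul_of_nonneg_left h2.2 h3.le)⟩

theorem cell_local {f : Eu n → ℕ} {x : Eu n} (hx : ∀ᶠ y in 𝓝 x, f y = f x) :
    ∀ᶠ m : ℕ in atTop, f '' {y | cell (1 / ((m : ℝ) + 1)) y = cell (1 / ((m : ℝ) + 1)) x} =
      {f x} := by
  obtain ⟨ε, hε, h⟩ := Metric.eventually_nhds_iff.1 hx
  have ht : Tendsto (fun m : ℕ => ((n : ℝ) + 1) * (1 / ((m : ℝ) + 1))) atTop (𝓝 0) := by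
    simpa using tendsto_one_div_add_atTop_nhds_zero_nat.const_mul ((n : ℝ) + 1)
  filter_upwards [ht.eventually (gt_mem_nhds hε)] with m hm
  refine eq_singleton_iff_unique_mem.2 ⟨⟨x, rfl, rfl⟩, ?_⟩
  rintro _ ⟨y, hy, rfl⟩
  refine h ?_
  rw [dist_eq_norm]
  exact (cell_dist (by positivity) hy).trans_lt hm

theorem compare {a b : Eu n → ℕ} (ha : JN a) (hb : JN b) (h : vol a < vol b) :
    ∃ r, JN r ∧ Eqv b (fun x => a x + r x) := by
  obtain ⟨ha1, ⟨C, ha2⟩, ρ, ha3⟩ := id ha
  obtain ⟨hb1, ⟨C', hb2⟩, ρ', hb3⟩ := id hb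
  let d : ℕ → ℝ := fun m => 1 / ((m : ℝ) + 1)
  have hd : ∀ m, 0 < d m := fun m => by positivity
  have hd1 : ∀ m, d m ≤ 1 := fun m => by
    have : (0 : ℝ) ≤ m := by positivity
    simp only [d]
    rw [div_le_one (by positivity)]
    linarith
  let su : ℕ → (Fin n → ℤ) → ℕ := fun m z => sSup (a '' {y | cell (d m) y = z})
  let sl : ℕ → (Fin n → ℤ) → ℕ := fun m z => sInf (b '' {y | cell (d m) y = z})
  have hbdd : ∀ s : Set (Eu n), BddAbove (a '' s) := fun s => ⟨C, by
    rintro _ ⟨y, -, rfl⟩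
    exact ha2 y⟩
  have hu1 : ∀ m x, a x ≤ su m (cell (d m) x) := fun m x => le_csSup (hbdd _) ⟨x, rfl, rfl⟩
  have hu2 : ∀ m z, su m z ≤ C := fun m z => csSup_le' (by
    rintro _ ⟨y, -, rfl⟩
    exact ha2 y)
  have hu3 : ∀ m z, su m z ≠ 0 → ∃ y, cell (d m) y = z ∧ ‖y‖ ≤ ρ := by
    intro m z hz
    by_contra hc
    refine hz (le_antisymm (csSup_le' ?_) (Nat.zero_le _))
    rintro _ ⟨y, hy, rfl⟩
    exact (ha3 y (not_le.1 fun h' => hc ⟨y, hy, h'⟩)).le
  have hl1 : ∀ m x, sl m (cell (d m) x) ≤ b x := fun m x => Nat.sInf_le ⟨x, rfl, rfl⟩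
  have hl3 : ∀ m z, sl m z ≠ 0 → ∃ y, cell (d m) y = z ∧ ‖y‖ ≤ ρ' := by
    intro m z hz
    have h1 : cell (d m) (corner (d m) z) = z := by
      have := cell_add (hd m) 0 z
      rwa [zero_add, cell_zero, zero_add] at this
    refine ⟨_, h1, not_lt.1 fun h2 => hz ?_⟩
    have := hl1 m (corner (d m) z)
    rw [h1, hb3 _ h2] at this
    omega
  have htu : Tendsto (fun m => vol (fun x => su m (cell (d m) x))) atTop (𝓝 (vol a)) := by
    refine tendsto_lintegral_of_dominated_convergence'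
      ((Metric.closedBall (0 : Eu n) (ρ + (n + 1))).indicator (fun _ => (C : ℝ≥0∞)))
      (fun m => ((aec_cell (hd m)).comp (fun z => (su m z : ℝ≥0∞))).aemeasurable)
      (fun m => Eventually.of_forall fun x => ?_) (bound_fin C _) ?_
    · by_cases hx : su m (cell (d m) x) = 0
      · simp [hx]
      · obtain ⟨y, hy1, hy2⟩ := hu3 m _ hx
        have h1 := cell_dist (hd m) hy1.symm
        have h2 := norm_add_le (x - y) y
        rw [sub_add_cancel] at h2
        have h3 : ((n : ℝ) + 1) * d m ≤ n + 1 := mul_le_of_le_one_right (by positivity) (hd1 m)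
        rw [indicator_of_mem (by rw [mem_closedBall_zero_iff]; linarith)]
        exact Nat.cast_le.2 (hu2 _ _)
    · filter_upwards [ha1] with x hx
      refine tendsto_const_nhds.congr' ?_
      filter_upwards [cell_local hx] with m hm
      simp only [su, d, hm, csSup_singleton]
  have htl : Tendsto (fun m => vol (fun x => sl m (cell (d m) x))) atTop (𝓝 (vol b)) := by
    refine tendsto_lintegral_of_dominated_convergence' (fun x => (b x : ℝ≥0∞))
      (fun m => ((aec_cell (hd m)).comp (fun z => (sl m z : ℝ≥0∞))).aemeasurable)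
      (fun m => Eventually.of_forall fun x => Nat.cast_le.2 (hl1 m x)) hb.vol_ne_top ?_
    filter_upwards [hb1] with x hx
    refine tendsto_const_nhds.congr' ?_
    filter_upwards [cell_local hx] with m hm
    simp only [sl, d, hm, csInf_singleton]
  obtain ⟨m, hm⟩ := (htu.eventually_lt htl h).exists
  obtain ⟨S, hS⟩ := cell_fin (n := n) (hd m) ρ
  obtain ⟨S', hS'⟩ := cell_fin (n := n) (hd m) ρ'
  have e1 := step_eqv (hd m) (su m) S fun z hz => by
    by_contra hc
    obtain ⟨y, rfl, hy⟩ := hu3 m z hc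
    exact hz (hS y hy)
  have e2 := step_eqv (hd m) (sl m) S' fun z hz => by
    by_contra hc
    obtain ⟨y, rfl, hy⟩ := hl3 m z hc
    exact hz (hS' y hy)
  set N1 := ∑ z ∈ S, su m z
  set N2 := ∑ z ∈ S', sl m z
  have hN : N1 ≤ N2 := by
    by_contra hc
    rw [e1.vol_eq, e2.vol_eq] at hm
    exact hm.not_ge (vol_mono (Eventually.of_forall fun x =>
      Nat.mul_le_mul_right _ (not_le.1 hc).le))
  obtain ⟨D, hD⟩ := Nat.exists_eq_add_of_le hN
  have j0 := jn_cube (n := n) (hd m) 0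
  have j1 := e1.left.sub ha
  have j2 := hb.sub e2.left
  refine ⟨_, j1.add ((j0.mul D).add j2), ?_⟩
  have s1 : Eqv b (fun x => N2 * cube (d m) 0 x + (b x - sl m (cell (d m) x))) :=
    Eqv.add _ _ _ _ _ _ hb (e2.right.add j2) e2 (Eqv.refl j2)
      (Eventually.of_forall fun x => by have := hl1 m x; omega)
      (Eventually.of_forall fun _ => rfl)
  refine s1.trans (Eqv.add _ _ _ _ _ _ s1.right (ha.add (j1.add ((j0.mul D).add j2))) e1.symm
    (Eqv.refl ((j0.mul D).add j2)) (Eventually.of_forall fun x => ?_)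
    (Eventually.of_forall fun x => ?_))
  · rw [hD]; ring
  · have := hu1 m x
    omega

theorem cancel_small {f g c : Eu n → ℕ} (hf : JN f) (hg : JN g) (hc : JN c)
    (h : Eqv (fun x => f x + c x) (fun x => g x + c x)) (hv : 2 * vol c < vol f) : Eqv f g := by
  obtain ⟨f1, f2, e1, e2, e⟩ := h.split g c hg hc (Eventually.of_forall fun _ => rfl)
  have j11 := hf.min e1.left
  have j12 := hf.sub j11
  have j21 := e1.left.sub j11
  have j22 := hc.sub j21
  have v1 : vol f ≤ vol (fun x => min (f x) (f1 x)) + vol c := by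
    rw [← e2.vol_eq, ← vol_add j11]
    refine vol_mono ?_
    filter_upwards [e] with x hx
    omega
  have v2 : vol (fun x => c x - (f1 x - min (f x) (f1 x))) ≤ vol c :=
    vol_mono (Eventually.of_forall fun x => Nat.sub_le _ _)
  have v3 : vol c < vol (fun x => min (f x) (f1 x)) := by
    rw [two_mul] at hv
    exact lt_of_add_lt_add_right (hv.trans_le v1)
  obtain ⟨r, hr, er⟩ := compare j22 j11 (v2.trans_lt v3)
  have s1 : Eqv f (fun x => r x + f2 x) := by
    refine Eqv.add _ _ _ _ _ _ hf (hr.add e2.left) er (Eqv.refl j12)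
      (Eventually.of_forall fun x => by omega) ?_
    filter_upwards [e] with x hx
    omega
  have s2 : Eqv (fun x => r x + f2 x) (fun x => r x + c x) := (Eqv.refl hr).add' e2
  have s3 : Eqv (fun x => r x + c x) f1 := by
    refine Eqv.add _ _ _ _ _ _ (hr.add hc) e1.left er.symm (Eqv.refl j21) ?_
      (Eventually.of_forall fun x => by omega)
    filter_upwards [e] with x hx
    omega
  exact ((s1.trans s2).trans s3).trans e1

theorem small_ball (hn : 0 < n) {v : ℝ≥0∞} (hv : 0 < v) :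
    ∃ q : Eu n → ℕ, JN q ∧ 0 < vol q ∧ 2 * vol q < v := by
  classical
  have : Nontrivial (Eu n) := by
    have : Nonempty (Fin n) := ⟨⟨0, hn⟩⟩
    infer_instance
  have ht : Tendsto (fun r : ℝ => volume (Metric.closedBall (0 : Eu n) r)) (𝓝[>] 0) (𝓝 0) := by
    have := tendsto_measure_cthickening_of_isClosed (μ := (volume : Measure (Eu n)))
      (s := {0}) ⟨1, one_pos, by
        rw [Metric.cthickening_singleton _ zero_le_one]
        exact measure_closedBall_lt_top.ne⟩ isClosed_singleton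
    rw [measure_singleton] at this
    refine (this.mono_left nhdsWithin_le_nhds).congr' ?_
    filter_upwards [self_mem_nhdsWithin] with r hr
    rw [Metric.cthickening_singleton _ (le_of_lt hr)]
  have ht2 := ENNReal.Tendsto.const_mul (a := 2) ht (Or.inr (by simp))
  rw [mul_zero] at ht2
  obtain ⟨r, h1, hr⟩ := ((ht2.eventually (gt_mem_nhds hv)).and self_mem_nhdsWithin).exists
  have hvol : vol (fun x : Eu n => if x ∈ Metric.closedBall (0 : Eu n) r then 1 else 0) =
      volume (Metric.closedBall (0 : Eu n) r) := by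
    rw [← lintegral_indicator_one Metric.isClosed_closedBall.measurableSet]
    refine lintegral_congr fun x => ?_
    beta_reduce
    by_cases hx : x ∈ Metric.closedBall (0 : Eu n) r
    · rw [if_pos hx, indicator_of_mem hx]; simp
    · rw [if_neg hx, indicator_of_notMem hx]; simp
  refine ⟨fun x => if x ∈ Metric.closedBall (0 : Eu n) r then 1 else 0, ⟨?_, ⟨1, fun x => ?_⟩,
    r, fun x hx => ?_⟩, ?_, ?_⟩
  · have := (AEC.mem ((convex_closedBall (0 : Eu n) r).addHaar_frontier volume)).comp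
      (fun p : Prop => if p then (1 : ℕ) else 0)
    convert this using 2
  · dsimp only; split_ifs <;> simp
  · exact if_neg (by simpa using hx)
  · rw [hvol]; exact Metric.measure_closedBall_pos _ _ hr
  · rw [hvol]; exact h1

theorem cancel (hn : 0 < n) {f g c : Eu n → ℕ} (hf : JN f) (hg : JN g) (hc : JN c)
    (h : Eqv (fun x => f x + c x) (fun x => g x + c x)) : Eqv f g := by
  rcases eq_or_ne (vol f) 0 with h0 | h0
  · have h1 := h.vol_eq
    rw [vol_add hf, vol_add hg, ENNReal.add_left_inj hc.vol_ne_top] at h1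
    have h2 := (lintegral_eq_zero_iff' hf.aem).1 h0
    have h3 := (lintegral_eq_zero_iff' hg.aem).1 (h1.symm.trans h0)
    refine Eqv.of_ae hf hg ?_
    filter_upwards [h2, h3] with x hx hx'
    simp only [Pi.zero_apply, Nat.cast_eq_zero] at hx hx'
    rw [hx, hx']
  · obtain ⟨q, hq, hq0, hq1⟩ := small_ball hn (pos_iff_ne_zero.2 h0)
    obtain ⟨N, hN⟩ := ENNReal.exists_nat_mul_gt hq0.ne' hc.vol_ne_top
    obtain ⟨r, hr, er⟩ := compare hc (hq.mul N) (by rwa [vol_mul hq])
    have key : ∀ N : ℕ, Eqv (fun x => f x + N * q x) (fun x => g x + N * q x) → Eqv f g := by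
      intro N
      induction N with
      | zero => simp
      | succ N ih =>
        intro h1
        refine ih (cancel_small (hf.add (hq.mul N)) (hg.add (hq.mul N)) hq ?_
          (hq1.trans_le (vol_mono (Eventually.of_forall fun x => Nat.le_add_right _ _))))
        simpa only [add_mul, one_mul, Nat.cast_add, add_assoc] using h1
    refine key N (((Eqv.refl hf).add' er).trans (Eqv.trans ?_ ((Eqv.refl hg).add' er.symm)))
    simpa only [add_assoc] using h.add' (Eqv.refl hr)

theorem eqv_of_BG (hn : 0 < n) {f g : Eu n → ℕ} (hf : JN f) (hg : JN g)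
    (h : (fun x => (f x : ℤ) - g x) ∈ BG n) : Eqv f g := by
  have jn : ∀ {h : Eu n → ℤ}, h ∈ JZ (Eu n) → JN (fun x => (h x).toNat) := by
    rintro h ⟨h1, ⟨C, h2⟩, ρ, h3⟩
    refine ⟨h1.comp Int.toNat, ⟨C.toNat, fun x => ?_⟩, ρ, fun x hx => by simp [h3 x hx]⟩
    exact Int.toNat_le_toNat ((le_abs_self _).trans (h2 x))
  have key : ∀ u ∈ BG n, ∃ p q, Eqv p q ∧ ∀ᵐ x, u x = (p x : ℤ) - q x := by
    intro u hu
    induction hu using AddSubgroup.closure_induction with
    | mem u hu =>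
      rcases hu with ⟨h, hh, γ, rfl⟩ | hu
      · have j1 := jn hh
        have j2 := jn (neg_mem hh)
        refine ⟨_, _, (Eqv.base _ _ γ (j1.iso γ) j1 (Eventually.of_forall fun _ => rfl)).add'
          (Eqv.base _ _ γ (j2.iso γ) j2 (Eventually.of_forall fun _ => rfl)).symm,
          Eventually.of_forall fun x => ?_⟩
        simp only [Pi.neg_apply]
        omega
      · refine ⟨_, _, Eqv.refl JN.zero, ?_⟩
        filter_upwards [hu] with x hx
        simp [hx]
    | zero => exact ⟨_, _, Eqv.refl JN.zero, by simp⟩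
    | add u v _ _ hu hv =>
      obtain ⟨p, q, e1, h1⟩ := hu
      obtain ⟨p', q', e2, h2⟩ := hv
      refine ⟨_, _, e1.add' e2, ?_⟩
      filter_upwards [h1, h2] with x h1 h2
      simp only [Pi.add_apply]
      omega
    | neg u _ hu =>
      obtain ⟨p, q, e1, h1⟩ := hu
      refine ⟨_, _, e1.symm, ?_⟩
      filter_upwards [h1] with x h1
      simp only [Pi.neg_apply]
      omega
  obtain ⟨p, q, e1, h1⟩ := key _ h
  refine cancel hn hf hg e1.right (Eqv.trans (Eqv.of_ae (hf.add e1.right) (hg.add e1.left) ?_)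
    ((Eqv.refl hg).add' e1))
  filter_upwards [h1] with x hx
  omega

end Pool.Agent.H173Z.Canc
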