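import Mathlib

set_option autoImplicit false

open Set

namespace Pool.Agent.H173Z.Canc

/-- The closed axis-parallel cube of `ℝⁿ` with lowest corner `c` and side `s`. -/
def Cube {n : ℕ} (c : EuclideanSpace ℝ (Fin n)) (s : ℝ) : Set (EuclideanSpace ℝ (Fin n)) :=
  {x | ∀ i, c i ≤ x i ∧ x i ≤ c i + s}

/-- Jordan outer measure zero: finite covers by cubes of arbitrarily small total volume. -/
def JordanNull {n : ℕ} (S : Set (EuclideanSpace ℝ (Fin n))) : Prop :=
  ∀ ε : ℝ, 0 < ε → ∃ (m : ℕ) (c : Fin m → EuclideanSpace ℝ (Fin n)) (s : Fin m → ℝ),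
    (∀ j, 0 ≤ s j) ∧ S ⊆ ⋃ j, Cube (c j) (s j) ∧ ∑ j, s j ^ n < ε

/-- A geometric body: a bounded, regular open, Jordan measurable set. -/
def Body {n : ℕ} (A : Set (EuclideanSpace ℝ (Fin n))) : Prop :=
  Bornology.IsBounded A ∧ A = interior (closure A) ∧ JordanNull (frontier A)

/-- The join of finitely many sets: the interior of the closure of their union. -/
def Join {n m : ℕ} (P : Fin m → Set (EuclideanSpace ℝ (Fin n))) :
    Set (EuclideanSpace ℝ (Fin n)) :=
  interior (closure (⋃ i, P i))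

/-- Equidecomposable as geometric bodies, under the full isometry group of `ℝⁿ`. -/
def Equidec {n : ℕ} (A B : Set (EuclideanSpace ℝ (Fin n))) : Prop :=
  ∃ (m : ℕ) (P : Fin m → Set (EuclideanSpace ℝ (Fin n)))
    (g : Fin m → EuclideanSpace ℝ (Fin n) ≃ᵢ EuclideanSpace ℝ (Fin n)),
    (∀ i, Body (P i)) ∧ (∀ i j, i ≠ j → Disjoint (P i) (P j)) ∧ A = Join P ∧
    (∀ i j, i ≠ j → Disjoint (g i '' P i) (g j '' P j)) ∧ B = Join fun i => g i '' P i

/-- `C` is the join of `k` pairwise disjoint isometric copies of `A`. -/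
def IsMultiple {n : ℕ} (k : ℕ) (A C : Set (EuclideanSpace ℝ (Fin n))) : Prop :=
  ∃ g : Fin k → EuclideanSpace ℝ (Fin n) ≃ᵢ EuclideanSpace ℝ (Fin n),
    (∀ i j, i ≠ j → Disjoint (g i '' A) (g j '' A)) ∧ C = Join fun i => g i '' A

end Pool.Agent.H173Z.Canc
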