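import Pool.Agent.H173Z.Canc.Cmp
import Pool.Agent.H173Z.Canc.Defs

set_option autoImplicit false
set_option linter.unusedSectionVars false

open MeasureTheory Filter Topology Set
open scoped ENNReal

namespace Pool.Agent.H173Z.Canc

variable {n : ℕ}

theorem vol_box (a b : Fin n → ℝ) :
    volume {x : Eu n | ∀ i, x i ∈ Icc (a i) (b i)} = ∏ i, ENNReal.ofReal (b i - a i) := by
  have h := (PiLp.volume_preserving_ofLp (Fin n)).measure_preimage
    (s := Set.pi univ fun i => Icc (a i) (b i))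
    (MeasurableSet.univ_pi fun i => measurableSet_Icc).nullMeasurableSet
  rw [Set.pi_univ_Icc, Real.volume_Icc_pi] at h
  rw [← h]
  congr 1
  ext x
  simp [Pi.le_def, forall_and]

theorem vol_box' (a b : Fin n → ℝ) :
    volume {x : Eu n | ∀ i, x i ∈ Ico (a i) (b i)} = ∏ i, ENNReal.ofReal (b i - a i) := by
  have h := (PiLp.volume_preserving_ofLp (Fin n)).measure_preimage
    (s := Set.pi univ fun i => Ico (a i) (b i))
    (MeasurableSet.univ_pi fun i => measurableSet_Ico).nullMeasurableSet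
  rw [Real.volume_pi_Ico] at h
  rw [← h]
  congr 1
  ext x
  simp

theorem vol_Cube (c : Eu n) {s : ℝ} (hs : 0 ≤ s) : volume (Cube c s) = ENNReal.ofReal (s ^ n) := by
  have := vol_box (fun i => c i) (fun i => c i + s)
  simp only [add_sub_cancel_left, Finset.prod_const, Finset.card_univ, Fintype.card_fin] at this
  rw [ENNReal.ofReal_pow hs, ← this]
  rfl

theorem JordanNull.null {S : Set (Eu n)} (h : JordanNull S) : volume S = 0 := by
  refine le_antisymm (ENNReal.le_of_forall_pos_le_add fun ε hε _ => ?_) zero_le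
  obtain ⟨m, c, s, h1, h2, h3⟩ := h ε hε
  refine (measure_mono h2).trans ((measure_iUnion_fintype_le _ _).trans ?_)
  simp only [vol_Cube _ (h1 _)]
  rw [← ENNReal.ofReal_sum_of_nonneg fun j _ => pow_nonneg (h1 j) n, zero_add]
  exact (ENNReal.ofReal_le_ofReal h3.le).trans (by simp)

theorem cell_eq_iff {δ : ℝ} (hδ : 0 < δ) (x : Eu n) (z : Fin n → ℤ) :
    cell δ x = z ↔ ∀ i, x i ∈ Ico (δ * z i) (δ * z i + δ) := by
  rw [funext_iff]
  refine forall_congr' fun i => ?_
  rw [cell, Int.floor_eq_iff, le_inv_mul_iff₀ hδ, inv_mul_lt_iff₀ hδ, mul_add, mul_one, mem_Ico]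

theorem jordanNull_of_compact {K : Set (Eu n)} (hK : IsCompact K) (h : volume K = 0) :
    JordanNull K := by
  classical
  intro ε hε
  obtain ⟨U, hU1, hU2, hU3⟩ := K.exists_isOpen_lt_of_lt (μ := volume) (ENNReal.ofReal ε)
    (by rw [h]; exact ENNReal.ofReal_pos.2 hε)
  obtain ⟨r, hr, hr2⟩ := hK.exists_thickening_subset_open hU2 hU1
  obtain ⟨ρ, hρ⟩ := hK.isBounded.exists_norm_le
  set δ : ℝ := r / (n + 2) with hδd
  have hδ : 0 < δ := by positivity
  have hδr : ((n : ℝ) + 1) * δ < r := by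
    rw [hδd, ← mul_div_assoc, div_lt_iff₀ (by positivity)]
    nlinarith
  obtain ⟨S0, hS0⟩ := cell_fin (n := n) hδ ρ
  let S := S0.filter fun z => ∃ y ∈ K, cell δ y = z
  have hv : ∀ z : Fin n → ℤ, volume {x : Eu n | cell δ x = z} = ENNReal.ofReal (δ ^ n) := by
    intro z
    simp only [cell_eq_iff hδ]
    rw [vol_box']
    simp [ENNReal.ofReal_pow hδ.le]
  have hm : ∀ z : Fin n → ℤ, MeasurableSet {x : Eu n | cell δ x = z} := by
    intro z
    simp only [cell_eq_iff hδ, ofPred_forall]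
    exact MeasurableSet.iInter fun i =>
      (EuclideanSpace.proj i : Eu n →L[ℝ] ℝ).continuous.measurable measurableSet_Ico
  have h1 : volume (⋃ z ∈ S, {x : Eu n | cell δ x = z}) = S.card * ENNReal.ofReal (δ ^ n) := by
    rw [measure_biUnion_finset _ fun z _ => hm z]
    · simp [hv]
    · intro z _ w _ hzw
      exact Set.disjoint_left.2 fun x h1 h2 => hzw (h1.symm.trans h2)
  have h2 : (⋃ z ∈ S, {x : Eu n | cell δ x = z}) ⊆ U := by
    intro x hx
    simp only [mem_iUnion, exists_prop] at hx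
    obtain ⟨z, hz, hx⟩ := hx
    obtain ⟨y, hy, hyz⟩ := (Finset.mem_filter.1 hz).2
    refine hr2 (Metric.mem_thickening_iff.2 ⟨y, hy, ?_⟩)
    rw [dist_eq_norm]
    exact (cell_dist hδ (hx.trans hyz.symm)).trans_lt hδr
  have h3 := (measure_mono h2).trans_lt hU3
  rw [h1, ← ENNReal.ofReal_natCast, ← ENNReal.ofReal_mul (by positivity),
    ENNReal.ofReal_lt_ofReal_iff hε] at h3
  refine ⟨S.card, fun j => corner δ (S.equivFin.symm j), fun _ => δ, fun _ => hδ.le, ?_, ?_⟩
  · intro y hy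
    have hz : cell δ y ∈ S := Finset.mem_filter.2 ⟨hS0 y (hρ y hy), y, hy, rfl⟩
    refine mem_iUnion.2 ⟨S.equivFin ⟨_, hz⟩, fun i => ?_⟩
    have := (cell_eq_iff hδ y _).1 rfl i
    simp only [Equiv.symm_apply_apply, corner]
    exact ⟨this.1, this.2.le⟩
  · simpa using h3

theorem AEC.frontier_null {s : Set (Eu n)} (h : AEC (fun x => x ∈ s)) :
    volume (frontier s) = 0 := by
  refine measure_eq_zero_iff_ae_notMem.2 ?_
  filter_upwards [h] with x hx
  rintro ⟨h1, h2⟩
  by_cases hs : x ∈ s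
  · exact h2 (mem_interior_iff_mem_nhds.2 (hx.mono fun y hy => (Iff.of_eq hy).2 hs))
  · obtain ⟨y, hy1, hy2⟩ := ((mem_closure_iff_frequently.1 h1).and_eventually hx).exists
    exact hs ((Iff.of_eq hy2).1 hy1)

theorem AEC.reg {s : Set (Eu n)} (h : AEC (fun x => x ∈ s)) :
    ∀ᵐ x, x ∈ interior (closure s) ↔ x ∈ s := by
  filter_upwards [measure_eq_zero_iff_ae_notMem.1 h.frontier_null] with x hx
  constructor
  · intro h1
    by_contra h2
    exact hx ⟨interior_subset h1, fun h3 => h2 (interior_subset h3)⟩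
  · intro h1
    have : x ∈ interior s := by
      by_contra h2
      exact hx ⟨subset_closure h1, h2⟩
    exact interior_mono subset_closure this

theorem closure_subset_of_ae {s t : Set (Eu n)} (hs : IsOpen s) (h : ∀ᵐ x, x ∈ s → x ∈ t) :
    s ⊆ closure t := by
  intro x hx
  by_contra hc
  have h1 : IsOpen (s ∩ (closure t)ᶜ) := hs.inter isClosed_closure.isOpen_compl
  have h2 : volume (s ∩ (closure t)ᶜ) = 0 := by
    refine measure_eq_zero_iff_ae_notMem.2 ?_
    filter_upwards [h] with y hy h3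
    exact h3.2 (subset_closure (hy h3.1))
  exact (h1.measure_pos volume ⟨x, hx, hc⟩).ne' h2

theorem reg_eq_of_ae {s t : Set (Eu n)} (hs : s = interior (closure s)) (ht : IsOpen t)
    (h : ∀ᵐ x, x ∈ s ↔ x ∈ t) : s = interior (closure t) := by
  have ho : IsOpen s := hs ▸ isOpen_interior
  apply subset_antisymm
  · exact interior_maximal (closure_subset_of_ae ho (h.mono fun x hx => hx.1)) ho
  · rw [hs]
    exact interior_mono (closure_minimal (closure_subset_of_ae ht (h.mono fun x hx => hx.2))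
      isClosed_closure)

theorem disjoint_of_ae {s t : Set (Eu n)} (hs : IsOpen s) (ht : IsOpen t)
    (h : ∀ᵐ x, ¬ (x ∈ s ∧ x ∈ t)) : Disjoint s t := by
  rw [Set.disjoint_iff_inter_eq_empty]
  exact ((hs.inter ht).measure_eq_zero_iff volume).1 (measure_eq_zero_iff_ae_notMem.2 h)

open Classical in
/-- Indicator function. -/
noncomputable def ind (A : Set (Eu n)) (x : Eu n) : ℕ := if x ∈ A then 1 else 0

theorem Body.aec {A : Set (Eu n)} (h : Body A) : AEC (fun x => x ∈ A) := AEC.mem h.2.2.null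

theorem Body.jn {A : Set (Eu n)} (h : Body A) : JN (ind A) := by
  obtain ⟨ρ, hρ⟩ := h.1.exists_norm_le
  refine ⟨h.aec.comp (fun p : Prop => (open Classical in if p then (1 : ℕ) else 0)),
    ⟨1, fun x => ?_⟩, ρ, fun x hx => if_neg fun h' => (hρ x h').not_gt hx⟩
  unfold ind
  split_ifs <;> simp

theorem JN.jz {f : Eu n → ℕ} (hf : JN f) : (fun x => (f x : ℤ)) ∈ JZ (Eu n) := by
  obtain ⟨h1, ⟨C, h2⟩, ρ, h3⟩ := hf
  refine ⟨h1.comp Nat.cast, ⟨C, fun x => ?_⟩, ρ, fun x hx => by simp [h3 x hx]⟩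
  have := h2 x
  show |(f x : ℤ)| ≤ C
  rw [abs_of_nonneg (by positivity)]
  exact_mod_cast this

theorem mem_image_iso (γ : Eu n ≃ᵢ Eu n) (A : Set (Eu n)) (x : Eu n) :
    x ∈ γ '' A ↔ γ.symm x ∈ A := by
  constructor
  · rintro ⟨y, hy, rfl⟩
    simpa using hy
  · intro h
    exact ⟨_, h, by simp⟩

theorem ind_join {m : ℕ} {P : Fin m → Set (Eu n)} (hP : ∀ i, AEC (fun x => x ∈ P i))
    (hd : ∀ i j, i ≠ j → Disjoint (P i) (P j)) :
    ∀ᵐ x, ind (Join P) x = ∑ i, ind (P i) x := by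
  have h1 : AEC (fun x => x ∈ ⋃ i, P i) := by
    simp only [mem_iUnion]
    exact (AEC.pi hP).comp fun p => ∃ i, p i
  filter_upwards [h1.reg] with x hx
  change x ∈ Join P ↔ _ at hx
  by_cases h : x ∈ ⋃ i, P i
  · obtain ⟨i, hi⟩ := mem_iUnion.1 h
    rw [ind, if_pos (hx.2 h), Finset.sum_eq_single i, ind, if_pos hi]
    · intro j _ hj
      exact if_neg fun h' => Set.disjoint_left.1 (hd j i hj) h' hi
    · simp
  · rw [ind, if_neg fun h' => h (hx.1 h')]
    exact (Finset.sum_eq_zero fun i _ => if_neg fun h' => h (mem_iUnion.2 ⟨i, h'⟩)).symm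

theorem join_BG {m : ℕ} {P : Fin m → Set (Eu n)} (hP : ∀ i, Body (P i))
    (g : Fin m → Eu n ≃ᵢ Eu n) (hd : ∀ i j, i ≠ j → Disjoint (g i '' P i) (g j '' P j)) :
    (fun x => (ind (Join fun i => g i '' P i) x : ℤ) - ∑ i, (ind (P i) x : ℤ)) ∈ BG n := by
  have h1 := ind_join (P := fun i => g i '' P i) (fun i => by
    simp only [mem_image_iso]
    exact (hP i).aec.iso (g i).symm) hd
  refine BG_congr (sum_mem (t := Finset.univ) fun i _ => BG_diff (hP i).jn.jz (g i).symm) ?_
  filter_upwards [h1] with x hx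
  rw [hx, Finset.sum_apply, Finset.sum_sub_distrib]
  have e : ∀ i, ind (g i '' P i) x = ind (P i) ((g i).symm x) := by
    intro i
    unfold ind
    rw [mem_image_iso]
  simp only [e]
  push_cast
  rfl

theorem Eqv.family {f g : Eu n → ℕ} (h : Eqv f g) : ∃ (ι : Type) (_ : Fintype ι)
    (p : ι → Eu n → ℕ) (γ : ι → Eu n ≃ᵢ Eu n), (∀ i, JN (p i)) ∧ (∀ᵐ x, f x = ∑ i, p i x) ∧
      ∀ᵐ x, g x = ∑ i, p i ((γ i).symm x) := by
  induction h with
  | base f g γ hf hg h =>
    refine ⟨Unit, inferInstance, fun _ => f, fun _ => γ, fun _ => hf, by simp, ?_⟩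
    filter_upwards [ae_iso h γ.symm] with x hx
    simpa using hx.symm
  | add f g f1 g1 f2 g2 hf hg e1 e2 h1 h2 ih1 ih2 =>
    obtain ⟨ι, _, p, γ, a1, a2, a3⟩ := ih1
    obtain ⟨ι', _, p', γ', b1, b2, b3⟩ := ih2
    refine ⟨ι ⊕ ι', inferInstance, Sum.elim p p', Sum.elim γ γ', ?_, ?_, ?_⟩
    · rintro (i | i)
      · exact a1 i
      · exact b1 i
    · filter_upwards [h1, a2, b2] with x k1 k2 k3
      simp [k1, k2, k3]
    · filter_upwards [h2, a3, b3] with x k1 k2 k3
      simp [k1, k2, k3]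

theorem two_le_sum {m : ℕ} {a : Fin m → ℕ} {i j : Fin m} (hij : i ≠ j) (hi : a i ≠ 0)
    (hj : a j ≠ 0) : 2 ≤ ∑ l, a l := by
  have := Finset.sum_le_sum_of_subset (f := a) (Finset.subset_univ {i, j})
  rw [Finset.sum_pair hij] at this
  omega

theorem ind_le (A : Set (Eu n)) (x : Eu n) : ind A x ≤ 1 := by
  unfold ind; split_ifs <;> simp

theorem ind_ne {A : Set (Eu n)} {x : Eu n} : ind A x ≠ 0 ↔ x ∈ A := by
  unfold ind; split_ifs with h <;> simp [h]

theorem equidec_of_eqv {A B : Set (Eu n)} (hA : Body A) (hB : Body B)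
    (h : Eqv (ind A) (ind B)) : Equidec A B := by
  obtain ⟨ι, _, p0, γ0, a1, a2, a3⟩ := h.family
  let eq := (Fintype.equivFin ι).symm
  let p := fun i => p0 (eq i)
  let γ := fun i => γ0 (eq i)
  have b1 : ∀ i, JN (p i) := fun i => a1 _
  have b2 : ∀ᵐ x, ind A x = ∑ i, p i x := by
    filter_upwards [a2] with x hx
    rw [hx, ← eq.sum_comp]
  have b3 : ∀ᵐ x, ind B x = ∑ i, p i ((γ i).symm x) := by
    filter_upwards [a3] with x hx
    rw [hx, ← eq.sum_comp]
  let P := fun i => interior (closure {x | p i x ≠ 0})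
  have c0 : ∀ i, AEC (fun x => x ∈ {x | p i x ≠ 0}) := fun i => (b1 i).1.comp (· ≠ 0)
  have c1 : ∀ i, ∀ᵐ x, x ∈ P i ↔ p i x ≠ 0 := fun i => (c0 i).reg
  have c2 : ∀ i, IsOpen (P i) := fun i => isOpen_interior
  have c3 : ∀ i, IsOpen (γ i '' P i) := fun i => (γ i).toHomeomorph.isOpenMap _ (c2 i)
  have c4 : ∀ᵐ x, ∀ i, x ∈ P i ↔ p i x ≠ 0 := ae_all_iff.2 c1
  have c5 : ∀ᵐ x, ∀ i, x ∈ γ i '' P i ↔ p i ((γ i).symm x) ≠ 0 := by
    refine ae_all_iff.2 fun i => ?_
    simp only [mem_image_iso]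
    exact ae_iso (c1 i) _
  refine ⟨_, P, γ, fun i => ?_, fun i j hij => ?_, ?_, fun i j hij => ?_, ?_⟩
  · obtain ⟨ρ, hρ⟩ := (b1 i).2.2
    have hb : Bornology.IsBounded (P i) := by
      refine (Bornology.IsBounded.closure ?_).subset interior_subset
      exact isBounded_iff_forall_norm_le.2 ⟨ρ, fun x hx => not_lt.1 fun h => hx (hρ x h)⟩
    refine ⟨hb, ?_, jordanNull_of_compact ?_ ?_⟩
    · apply subset_antisymm
      · exact interior_maximal subset_closure isOpen_interior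
      · exact interior_mono (closure_minimal interior_subset isClosed_closure)
    · exact hb.isCompact_closure.of_isClosed_subset isClosed_frontier frontier_subset_closure
    · exact measure_mono_null (frontier_interior_subset.trans frontier_closure_subset)
        (c0 i).frontier_null
  · refine disjoint_of_ae (c2 i) (c2 j) ?_
    filter_upwards [c4, b2] with x h1 h2 h3
    have := two_le_sum (a := fun i => p i x) hij ((h1 i).1 h3.1) ((h1 j).1 h3.2)
    have := ind_le A x
    omega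
  · refine reg_eq_of_ae hA.2.1 (isOpen_iUnion c2) ?_
    filter_upwards [c4, b2] with x h1 h2
    rw [← ind_ne, h2, mem_iUnion]
    simp only [h1, ne_eq, Finset.sum_eq_zero_iff, Finset.mem_univ, true_imp_iff, not_forall]
  · refine disjoint_of_ae (c3 i) (c3 j) ?_
    filter_upwards [c5, b3] with x h1 h2 h3
    have := two_le_sum (a := fun i => p i ((γ i).symm x)) hij ((h1 i).1 h3.1) ((h1 j).1 h3.2)
    have := ind_le B x
    omega
  · refine reg_eq_of_ae hB.2.1 (isOpen_iUnion c3) ?_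
    filter_upwards [c5, b3] with x h1 h2
    rw [← ind_ne, h2, mem_iUnion]
    simp only [h1, ne_eq, Finset.sum_eq_zero_iff, Finset.mem_univ, true_imp_iff, not_forall]

theorem cancellation (hn : 1 ≤ n) {k : ℕ} (hk : 1 ≤ k) {A B C D : Set (Eu n)} (hA : Body A)
    (hB : Body B) (hC : IsMultiple k A C) (hD : IsMultiple k B D) (h : Equidec C D) :
    Equidec A B := by
  obtain ⟨s, hs, rfl⟩ := hC
  obtain ⟨t, ht, rfl⟩ := hD
  obtain ⟨m, P, g, h1, h2, h3, h4, h5⟩ := h
  have e1 := join_BG (fun _ => hA) s hs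
  have e2 := join_BG (fun _ => hB) t ht
  have e3 := join_BG h1 g h4
  have e4 := ind_join (fun i => (h1 i).aec) h2
  rw [← h5] at e3
  rw [← h3] at e4
  refine equidec_of_eqv hA hB (eqv_of_BG hn hA.jn hB.jn
    (tf_G hn hk (sub_mem hA.jn.jz hB.jn.jz) (BG_congr (sub_mem (sub_mem e2 e1) e3) ?_)))
  filter_upwards [e4] with x hx
  simp only [Pi.sub_apply, hx, Finset.sum_const, Finset.card_univ, Fintype.card_fin, nsmul_eq_mul]
  push_cast
  ring

end Pool.Agent.H173Z.Canc
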