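import Pool.Agent.H173Z.Canc.Tower

set_option autoImplicit false
set_option linter.unusedSectionVars false

open MeasureTheory Filter Topology Set

namespace Pool.Agent.H173Z.Canc

/-- Unit vectors of the lattice. -/
abbrev un (i : Fin 3) : Fin 3 → ℤ := Pi.single i 1

/-- Closed lattice one-forms in the directions `d` are exact. -/
def PoinProp {ι : Type} (d : ι → Fin 3) : Prop :=
  ∀ (A : Type) [AddCommGroup A] (u : ι → (Fin 3 → ℤ) → A),
    (∀ i j a, u j (a + un (d i)) - u j a = u i (a + un (d j)) - u i a) →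
    ∃ g : (Fin 3 → ℤ) → A, ∀ i a, g (a + un (d i)) - g a = u i a

theorem vec_eta (a : Fin 3 → ℤ) : ![a 0, a 1, a 2] = a := by
  funext i; fin_cases i <;> rfl

theorem vec_add0 (x y z : ℤ) : ![x, y, z] + un 0 = ![x + 1, y, z] := by
  funext i; fin_cases i <;> simp

theorem vec_add1 (x y z : ℤ) : ![x, y, z] + un 1 = ![x, y + 1, z] := by
  funext i; fin_cases i <;> simp

theorem vec_add2 (x y z : ℤ) : ![x, y, z] + un 2 = ![x, y, z + 1] := by
  funext i; fin_cases i <;> simp

theorem poinProp3 : PoinProp (id : Fin 3 → Fin 3) := by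
  intro A _ u h
  obtain ⟨g, h0, h1, h2⟩ := poin3 (fun x y z => u 0 ![x, y, z]) (fun x y z => u 1 ![x, y, z])
    (fun x y z => u 2 ![x, y, z])
    (fun x y z => by simpa only [id, vec_add0, vec_add1] using h 0 1 ![x, y, z])
    (fun x y z => by simpa only [id, vec_add0, vec_add2] using h 0 2 ![x, y, z])
    (fun x y z => by simpa only [id, vec_add1, vec_add2] using h 1 2 ![x, y, z])
  refine ⟨fun a => g (a 0) (a 1) (a 2), fun i a => ?_⟩
  fin_cases i
  · simpa [vec_eta] using h0 (a 0) (a 1) (a 2)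
  · simpa [vec_eta] using h1 (a 0) (a 1) (a 2)
  · simpa [vec_eta] using h2 (a 0) (a 1) (a 2)

theorem poinProp2 : PoinProp (Fin.castSucc : Fin 2 → Fin 3) := by
  intro A _ u h
  obtain ⟨g, h0, h1⟩ := poin2 (A := ℤ → A) (fun x y z => u 0 ![x, y, z])
    (fun x y z => u 1 ![x, y, z])
    (fun x y => funext fun z => by
      simpa only [Fin.castSucc_zero, Fin.castSucc_one, vec_add0, vec_add1, Pi.sub_apply]
        using h 0 1 ![x, y, z])
  refine ⟨fun a => g (a 0) (a 1) (a 2), fun i a => ?_⟩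
  fin_cases i
  · simpa [vec_eta] using congrFun (h0 (a 0) (a 1)) (a 2)
  · simpa [vec_eta] using congrFun (h1 (a 0) (a 1)) (a 2)

theorem poinG1 {A : Type} [AddCommGroup A] (u : (Fin 3 → ℤ) → A) :
    ∃ g : (Fin 3 → ℤ) → A, ∀ a, g (a + un 0) - g a = u a := by
  obtain ⟨g, h0⟩ := poin1 (A := ℤ → ℤ → A) (fun x y z => u ![x, y, z])
  refine ⟨fun a => g (a 0) (a 1) (a 2), fun a => ?_⟩
  simpa [vec_eta] using congrFun (congrFun (h0 (a 0)) (a 1)) (a 2)

variable {E : Type} [NormedAddCommGroup E] [NormedSpace ℝ E] [MeasureSpace E] [BorelSpace E]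
  [(volume : Measure E).IsAddRightInvariant]

theorem ae_shift {P : E → Prop} (h : ∀ᵐ x, P x) (t : E) : ∀ᵐ x, P (x + t) :=
  (measurePreserving_add_right volume t).quasiMeasurePreserving.ae h

theorem AEC.shift {β : Type*} {f : E → β} (hf : AEC f) (t : E) : AEC (fun x => f (x + t)) :=
  hf.precomp (by fun_prop) (measurePreserving_add_right volume t).quasiMeasurePreserving

/-- Almost everywhere locally constant functions with period `e`, supported in a cylinder. -/
def JP (ℓ : E →L[ℝ] ℝ) (e : E) (ρ : ℝ) (K : Type) [AddCommGroup K] : AddSubgroup (E → K) where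
  carrier := {f | AEC f ∧ (∀ x, f (x + e) = f x) ∧ ∀ x, ρ < ‖x - ℓ x • e‖ → f x = 0}
  add_mem' := by
    rintro f g ⟨h1, h2, h3⟩ ⟨h4, h5, h6⟩
    exact ⟨h1.comp₂ h4 (· + ·), fun x => by simp [h2, h5], fun x hx => by simp [h3 x hx, h6 x hx]⟩
  zero_mem' := ⟨AEC.const 0, fun _ => rfl, fun _ _ => rfl⟩
  neg_mem' := by
    rintro f ⟨h1, h2, h3⟩
    exact ⟨h1.comp (fun t => -t), fun x => by simp [h2], fun x hx => by simp [h3 x hx]⟩

variable {ℓ : E →L[ℝ] ℝ} {e : E} {ρ : ℝ} {K : Type} [AddCommGroup K]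

omit [BorelSpace E] [(volume : Measure E).IsAddRightInvariant] [MeasureSpace E] in
theorem cyl_shift (he : ℓ e = 1) (x : E) (s : ℝ) :
    x + s • e - ℓ (x + s • e) • e = x - ℓ x • e := by
  rw [map_add, map_smul, he, smul_eq_mul, mul_one, add_smul]
  abel

theorem JP_shift (he : ℓ e = 1) {f : E → K} (hf : f ∈ JP ℓ e ρ K) (s : ℝ) :
    (fun x => f (x + s • e)) ∈ JP ℓ e ρ K := by
  obtain ⟨h1, h2, h3⟩ := hf
  refine ⟨h1.shift _, fun x => ?_, fun x hx => h3 _ ?_⟩
  · show f (x + e + s • e) = f (x + s • e)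
    rw [add_right_comm, h2]
  · rwa [cyl_shift he]

omit [BorelSpace E] [(volume : Measure E).IsAddRightInvariant] in
theorem aepoin {ι : Type} {d : ι → Fin 3} (hd : PoinProp d)
    (u : ι → (Fin 3 → ℤ) → E → K) (hu : ∀ i a, u i a ∈ JP ℓ e ρ K)
    (h : ∀ i j a, ∀ᵐ y, u j (a + un (d i)) y - u j a y = u i (a + un (d j)) y - u i a y) :
    ∃ g : (Fin 3 → ℤ) → E → K, (∀ a, g a ∈ JP ℓ e ρ K) ∧
      ∀ i a, ∀ᵐ y, g (a + un (d i)) y - g a y = u i a y := by
  let N : AddSubgroup (JP ℓ e ρ K) :=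
    { carrier := {f | ∀ᵐ y, (f : E → K) y = 0}
      add_mem' := by
        intro f g hf hg
        show ∀ᵐ y, ((f + g : JP ℓ e ρ K) : E → K) y = 0
        filter_upwards [hf, hg] with y h1 h2
        simp [h1, h2]
      zero_mem' := by
        show ∀ᵐ y, ((0 : JP ℓ e ρ K) : E → K) y = 0
        exact Eventually.of_forall fun _ => rfl
      neg_mem' := by
        intro f hf
        show ∀ᵐ y, ((-f : JP ℓ e ρ K) : E → K) y = 0
        filter_upwards [hf] with y h1
        simp [h1] }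
  have hN : ∀ f g : JP ℓ e ρ K, (QuotientAddGroup.mk f : JP ℓ e ρ K ⧸ N) = QuotientAddGroup.mk g ↔
      ∀ᵐ y, (f : E → K) y = (g : E → K) y := by
    intro f g
    rw [QuotientAddGroup.eq_iff_sub_mem]
    show (∀ᵐ y, ((f - g : JP ℓ e ρ K) : E → K) y = 0) ↔ _
    simp [sub_eq_zero]
  obtain ⟨g, hg⟩ := hd (JP ℓ e ρ K ⧸ N) (fun i a => QuotientAddGroup.mk ⟨u i a, hu i a⟩) (by
    intro i j a
    rw [← QuotientAddGroup.mk_sub, ← QuotientAddGroup.mk_sub, hN]
    exact h i j a)
  choose g' hg' using fun a => QuotientAddGroup.mk_surjective (g a)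
  refine ⟨fun a => g' a, fun a => (g' a).2, fun i a => ?_⟩
  have := hg i a
  rw [← hg', ← hg', ← QuotientAddGroup.mk_sub, hN] at this
  exact this

/-- The data given by `tower`. -/
structure TowerData (α : Fin 3 → ℝ) (π : ℕ → ℝ → Fin 3 → ℤ) : Prop where
  aec : ∀ m, AEC (π m)
  per : ∀ m x, π m (x + 1) = π m x
  step : ∀ m x i, π m (x + α i) = π m x - un i → π (m + 1) (x + α i) = π (m + 1) x - un i
  ev : ∀ᵐ x, ∀ i, ∃ m, π m (x + α i) = π m x - un i

theorem exists_towerData : ∃ α π, TowerData α π := by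
  obtain ⟨α, π, h1, h2, h3, h4⟩ := tower
  exact ⟨α, π, h1, h2, h3, h4⟩

theorem TowerData.mono {α : Fin 3 → ℝ} {π : ℕ → ℝ → Fin 3 → ℤ} (T : TowerData α π)
    {x : ℝ} {i : Fin 3} {m m' : ℕ} (h : π m (x + α i) = π m x - un i) (hm : m ≤ m') :
    π m' (x + α i) = π m' x - un i := by
  induction m', hm using Nat.le_induction with
  | base => exact h
  | succ n _ ih => exact T.step _ _ _ ih

theorem glue {α : Fin 3 → ℝ} {π : ℕ → ℝ → Fin 3 → ℤ} (T : TowerData α π) (he : ℓ e = 1)
    (hq : Measure.QuasiMeasurePreserving ℓ volume volume)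
    {ι : Type} [Countable ι] {d : ι → Fin 3} (hd : PoinProp d)
    (B : (Fin 3 → ℤ) → ι → E → K) (hB : ∀ a i, B a i ∈ JP ℓ e ρ K) (ω : ι → ι → E → K)
    (hω : ∀ a i j, ∀ᵐ y, B (a + un (d i)) j y - B a j y - B (a + un (d j)) i y + B a i y =
      ω i j (y + dot α a • e)) :
    ∃ β : ι → E → K, (∀ i, β i ∈ JP ℓ e ρ K) ∧ ∀ i j, ∀ᵐ x,
      β j (x + α (d i) • e) - β j x - β i (x + α (d j) • e) + β i x = ω i j x := by
  classical
  have hG : ∀ s : Fin 3 → ℤ, ∃ g : (Fin 3 → ℤ) → E → K, (∀ a, g a ∈ JP ℓ e ρ K) ∧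
      ∀ i a, ∀ᵐ y, g (a + un (d i)) y - g a y =
        B a i y - B (a - s) i (y + dot α s • e) := by
    intro s
    refine aepoin hd (fun i a y => B a i y - B (a - s) i (y + dot α s • e))
      (fun i a => sub_mem (hB a i) (JP_shift he (hB (a - s) i) _)) fun i j a => ?_
    filter_upwards [hω a i j, ae_shift (hω (a - s) i j) (dot α s • e)] with y h1 h2
    have e1 : y + dot α s • e + dot α (a - s) • e = y + dot α a • e := by
      rw [dot_sub, sub_smul]; abel
    rw [e1] at h2
    rw [show a + un (d i) - s = a - s + un (d i) by abel,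
      show a + un (d j) - s = a - s + un (d j) by abel]
    linear_combination (norm := abel) h1 - h2
  choose G hG1 hG2 using hG
  have hπ : ∀ m, AEC (fun x : E => π m (ℓ x)) := fun m => (T.aec m).precomp ℓ.continuous hq
  have hl : ∀ (x : E) (s : ℝ), ℓ (x + s • e) = ℓ x + s := by
    intro x s; rw [map_add, map_smul, he, smul_eq_mul, mul_one]
  have hle : ∀ x : E, ℓ (x + e) = ℓ x + 1 := by
    intro x; rw [map_add, he]
  let gam : ℕ → E → K := fun m x =>
    G (π m (ℓ x) - π (m + 1) (ℓ x)) (-π (m + 1) (ℓ x)) (x + dot α (π (m + 1) (ℓ x)) • e)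
  have hgam : ∀ m, gam m ∈ JP ℓ e ρ K := by
    intro m
    refine ⟨?_, fun x => ?_, fun x hx => ?_⟩
    · exact AEC.select (Γ := (Fin 3 → ℤ) × (Fin 3 → ℤ))
        (F := fun p x => G (p.1 - p.2) (-p.2) (x + dot α p.2 • e))
        ((hπ m).comp₂ (hπ (m + 1)) Prod.mk) fun p => (hG1 _ _).1.shift _
    · simp only [gam, hle, T.per]
      rw [add_right_comm, (hG1 _ _).2.1]
    · exact (hG1 _ _).2.2 _ (by rwa [cyl_shift he])
  let Gs : ℕ → E → K := fun m => ∑ j ∈ Finset.range m, gam j
  have hGs : ∀ m, Gs m ∈ JP ℓ e ρ K := fun m => sum_mem fun j _ => hgam j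
  let b0 : ℕ → ι → E → K := fun m i x => B (-π m (ℓ x)) i (x + dot α (π m (ℓ x)) • e)
  have hb0 : ∀ m i, b0 m i ∈ JP ℓ e ρ K := by
    intro m i
    refine ⟨?_, fun x => ?_, fun x hx => ?_⟩
    · exact AEC.select (F := fun p x => B (-p) i (x + dot α p • e)) (hπ m)
        fun p => (hB _ _).1.shift _
    · simp only [b0, hle, T.per]
      rw [add_right_comm, (hB _ _).2.1]
    · exact (hB _ _).2.2 _ (by rwa [cyl_shift he])
  let bm : ℕ → ι → E → K := fun m i => b0 m i - ((fun x => Gs m (x + α (d i) • e)) - Gs m)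
  have hbm : ∀ m i, bm m i ∈ JP ℓ e ρ K := fun m i =>
    sub_mem (hb0 m i) (sub_mem (JP_shift he (hGs m) _) (hGs m))
  let Good : ι → ℕ → E → Prop := fun i m x =>
    π m (ℓ x + α (d i)) = π m (ℓ x) - un (d i)
  have hGood : ∀ i m, AEC (Good i m) := by
    intro i m
    have h1 := (hπ m).shift (α (d i) • e)
    simp only [hl] at h1
    exact h1.comp₂ (hπ m) fun p q => p = q - un (d i)
  have hev : ∀ᵐ x : E, ∀ i, ∃ m, Good i m x := by
    filter_upwards [hq.ae T.ev] with x hx i
    exact hx (d i)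
  let M : ι → E → ℕ := fun i x => sInf {m | Good i m x}
  have hM : ∀ i, AEC (M i) := fun i => aec_sInf (hGood i) (hev.mono fun x hx => hx i)
  have hgauge : ∀ᵐ x : E, ∀ (t s a : Fin 3 → ℤ) (i : ι),
      G s (a + un (d i)) (x + dot α t • e) - G s a (x + dot α t • e) =
        B a i (x + dot α t • e) - B (a - s) i (x + dot α t • e + dot α s • e) := by
    simp only [ae_all_iff]
    intro t s a i
    exact ae_shift (hG2 s i a) _
  have hstep : ∀ᵐ x : E, ∀ i m, Good i m x → bm (m + 1) i x = bm m i x := by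
    filter_upwards [hgauge] with x hx i m hg
    have hg' : Good i (m + 1) x := T.step _ _ _ hg
    have h1 := hx (π (m + 1) (ℓ x)) (π m (ℓ x) - π (m + 1) (ℓ x)) (-π (m + 1) (ℓ x)) i
    have e1 : x + dot α (π (m + 1) (ℓ x)) • e + dot α (π m (ℓ x) - π (m + 1) (ℓ x)) • e =
        x + dot α (π m (ℓ x)) • e := by
      rw [dot_sub, sub_smul]; abel
    rw [e1, show -π (m + 1) (ℓ x) - (π m (ℓ x) - π (m + 1) (ℓ x)) = -π m (ℓ x) by abel] at h1
    have e2 : gam m (x + α (d i) • e) = G (π m (ℓ x) - π (m + 1) (ℓ x))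
        (-π (m + 1) (ℓ x) + un (d i)) (x + dot α (π (m + 1) (ℓ x)) • e) := by
      simp only [gam, hl]
      rw [hg, hg']
      congr 1
      · abel
      · abel
      · rw [dot_sub, dot_single, sub_smul]; abel
    simp only [bm, Gs, b0, Pi.sub_apply, Finset.sum_range_succ, Pi.add_apply, e2]
    simp only [gam]
    linear_combination (norm := abel) -h1
  have hstab : ∀ᵐ x : E, ∀ i, ∀ᶠ m in atTop, Good i m x ∧ bm (M i x) i x = bm m i x := by
    filter_upwards [hstep, hev] with x hx hx' i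
    have h0 : Good i (M i x) x := Nat.sInf_mem (s := {m | Good i m x}) (hx' i)
    refine eventually_atTop.2 ⟨M i x, fun m hm => ⟨T.mono h0 hm, ?_⟩⟩
    induction m, hm using Nat.le_induction with
    | base => rfl
    | succ n hn ih => rw [hx i n (T.mono h0 hn), ih]
  refine ⟨fun i x => bm (M i x) i x, fun i => ⟨?_, fun x => ?_, fun x hx => ?_⟩, fun i j => ?_⟩
  · exact AEC.select (F := fun m x => bm m i x) (hM i) fun m => (hbm m i).1
  · have e1 : M i (x + e) = M i x := by
      have : ∀ m, Good i m (x + e) = Good i m x := by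
        intro m
        simp only [Good, hle, add_right_comm (ℓ x) 1, T.per]
      simp only [M, this]
    simp only [e1]
    exact (hbm _ i).2.1 x
  · exact (hbm _ i).2.2 x hx
  · have hω' : ∀ᵐ x : E, ∀ t : Fin 3 → ℤ,
        B (-t + un (d i)) j (x + dot α t • e) - B (-t) j (x + dot α t • e) -
          B (-t + un (d j)) i (x + dot α t • e) + B (-t) i (x + dot α t • e) =
          ω i j (x + dot α t • e + dot α (-t) • e) := by
      simp only [ae_all_iff]
      intro t
      exact ae_shift (hω (-t) i j) _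
    filter_upwards [hω', hstab, ae_shift hstab (α (d i) • e), ae_shift hstab (α (d j) • e)]
      with x h0 h1 h2 h3
    obtain ⟨m, ⟨g1, k1⟩, ⟨g2, k2⟩, ⟨-, k3⟩, ⟨-, k4⟩⟩ :=
      ((h1 i).and ((h1 j).and ((h2 j).and (h3 i)))).exists
    rw [k1, k2, k3, k4]
    have h5 := h0 (π m (ℓ x))
    have e1 : x + dot α (π m (ℓ x)) • e + dot α (-π m (ℓ x)) • e = x := by
      rw [dot_neg, neg_smul]; abel
    rw [e1] at h5
    have e2 : ∀ i' j', Good i' m x → b0 m j' (x + α (d i') • e) =
        B (-π m (ℓ x) + un (d i')) j' (x + dot α (π m (ℓ x)) • e) := by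
      intro i' j' hg
      simp only [b0, hl]
      rw [hg]
      congr 1
      · abel
      · rw [dot_sub, dot_single, sub_smul]; abel
    simp only [bm, Pi.sub_apply, e2 i j g1, e2 j i g2]
    rw [add_right_comm x (α (d j) • e) (α (d i) • e)]
    simp only [b0]
    linear_combination (norm := abel) h5

theorem solve0 {α : Fin 3 → ℝ} {π : ℕ → ℝ → Fin 3 → ℤ} (T : TowerData α π) (he : ℓ e = 1)
    (hq : Measure.QuasiMeasurePreserving ℓ volume volume) {g : E → K} (hg : g ∈ JP ℓ e ρ K) :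
    ∃ a b : E → K, a ∈ JP ℓ e ρ K ∧ b ∈ JP ℓ e ρ K ∧ ∀ᵐ x,
      g x = a (x + α 0 • e) - a x + (b (x + α 1 • e) - b x) := by
  obtain ⟨c, hc⟩ := poinG1 (A := JP ℓ e ρ K)
    (fun a => ⟨fun x => g (x + dot α a • e), JP_shift he hg _⟩)
  have hc' : ∀ a y, (c (a + un 0) : E → K) y - (c a : E → K) y = g (y + dot α a • e) := by
    intro a y
    exact congrFun (congrArg Subtype.val (hc a)) y
  obtain ⟨β, h1, h2⟩ := glue T he hq poinProp2 (fun a => ![0, c a])
    (fun a i => by
      fin_cases i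
      · exact zero_mem _
      · exact (c a).2) ![![0, g], ![-g, 0]] (by
      intro a i j
      refine Eventually.of_forall fun y => ?_
      fin_cases i <;> fin_cases j
      · simp
      · simpa using hc' a y
      · have := hc' a y
        simp only [Fin.mk_one, Fin.zero_eta, Fin.isValue, Matrix.cons_val_zero, Pi.zero_apply,
          Matrix.cons_val_one, Matrix.cons_val_fin_one, Fin.castSucc_zero, Pi.neg_apply]
        linear_combination (norm := abel) -this
      · simp)
  refine ⟨β 1, -β 0, h1 1, neg_mem (h1 0), ?_⟩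
  filter_upwards [h2 0 1] with x hx
  simp only [Fin.castSucc_zero, Fin.castSucc_one, Matrix.cons_val_zero, Matrix.cons_val_one,
    Matrix.cons_val_fin_one] at hx
  simp only [Pi.neg_apply]
  linear_combination (norm := abel) -hx

theorem solve1 {α : Fin 3 → ℝ} {π : ℕ → ℝ → Fin 3 → ℤ} (T : TowerData α π) (he : ℓ e = 1)
    (hq : Measure.QuasiMeasurePreserving ℓ volume volume) {a b : E → K} (ha : a ∈ JP ℓ e ρ K)
    (hb : b ∈ JP ℓ e ρ K)
    (hab : ∀ᵐ x, a (x + α 0 • e) - a x + (b (x + α 1 • e) - b x) = 0) :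
    ∃ β : Fin 3 → E → K, (∀ i, β i ∈ JP ℓ e ρ K) ∧ ∀ᵐ x,
      β 2 (x + α 1 • e) - β 2 x - β 1 (x + α 2 • e) + β 1 x = a x ∧
      β 0 (x + α 2 • e) - β 0 x - β 2 (x + α 0 • e) + β 2 x = b x ∧
      β 1 (x + α 0 • e) - β 1 x - β 0 (x + α 1 • e) + β 0 x = 0 := by
  obtain ⟨c, hc1, hc2⟩ := aepoin (ℓ := ℓ) (e := e) (ρ := ρ) poinProp2
    ![fun s y => -b (y + dot α s • e), fun s y => a (y + dot α s • e)]
    (fun i s => by
      fin_cases i
      · exact neg_mem (JP_shift he hb _)
      · exact JP_shift he ha _) (by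
      intro i j s
      filter_upwards [ae_shift hab (dot α s • e)] with y hy
      fin_cases i <;> fin_cases j
      · rfl
      · simp only [Fin.mk_one, Fin.zero_eta, Fin.isValue, Matrix.cons_val_zero,
          Matrix.cons_val_one, Matrix.cons_val_fin_one, Fin.castSucc_zero, Fin.castSucc_one,
          dot_add, dot_single, add_smul, ← add_assoc]
        linear_combination (norm := abel) hy
      · simp only [Fin.mk_one, Fin.zero_eta, Fin.isValue, Matrix.cons_val_zero,
          Matrix.cons_val_one, Matrix.cons_val_fin_one, Fin.castSucc_zero, Fin.castSucc_one,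
          dot_add, dot_single, add_smul, ← add_assoc]
        linear_combination (norm := abel) -hy
      · rfl)
  obtain ⟨β, h1, h2⟩ := glue T he hq poinProp3 (fun s => ![0, 0, c s])
    (fun s i => by
      fin_cases i
      · exact zero_mem _
      · exact zero_mem _
      · exact hc1 s) ![![0, 0, -b], ![0, 0, a], ![b, -a, 0]] (by
      intro s i j
      filter_upwards [hc2 0 s, hc2 1 s] with y h0 h1
      simp only [Fin.castSucc_zero, Fin.castSucc_one, Matrix.cons_val_zero, Matrix.cons_val_one,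
        Matrix.cons_val_fin_one] at h0 h1
      fin_cases i <;> fin_cases j <;> simp <;>
        first | exact h0 | exact h1 | linear_combination (norm := abel1) -h0 |
          linear_combination (norm := abel1) -h1)
  refine ⟨β, h1, ?_⟩
  filter_upwards [h2 1 2, h2 2 0, h2 0 1] with x h12 h20 h01
  exact ⟨by simpa using h12, by simpa using h20, by simpa using h01⟩

end Pool.Agent.H173Z.Canc
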