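import Pool.Agent.H173Z.Canc.Per

set_option autoImplicit false
set_option linter.unusedSectionVars false

open MeasureTheory Filter Topology Set
open scoped ENNReal

namespace Pool.Agent.H173Z.Canc

/-- Euclidean space. -/
abbrev Eu (n : ℕ) : Type := EuclideanSpace ℝ (Fin n)

variable {n : ℕ}

theorem iso_mp (γ : Eu n ≃ᵢ Eu n) : MeasurePreserving γ volume volume := by
  have h := (measurePreserving_add_right volume (γ 0)).comp
    γ.toRealLinearIsometryEquiv.measurePreserving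
  have e : (γ : Eu n → Eu n) = (fun x => x + γ 0) ∘ γ.toRealLinearIsometryEquiv := by
    funext x
    simp
  rw [e]
  exact h

theorem iso_conj (γ : Eu n ≃ᵢ Eu n) (t : Eu n) : ∃ t', ∀ x, γ (x + t') = γ x + t := by
  refine ⟨γ.toRealLinearIsometryEquiv.symm t, fun x => ?_⟩
  have h := γ.toRealLinearIsometryEquiv.map_add x (γ.toRealLinearIsometryEquiv.symm t)
  rw [LinearIsometryEquiv.apply_symm_apply, IsometryEquiv.toRealLinearIsometryEquiv_apply,
    IsometryEquiv.toRealLinearIsometryEquiv_apply] at h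
  linear_combination (norm := abel) h

theorem ae_iso {P : Eu n → Prop} (h : ∀ᵐ x, P x) (γ : Eu n ≃ᵢ Eu n) : ∀ᵐ x, P (γ x) :=
  (iso_mp γ).quasiMeasurePreserving.ae h

theorem AEC.iso {β : Type*} {f : Eu n → β} (hf : AEC f) (γ : Eu n ≃ᵢ Eu n) :
    AEC (fun x => f (γ x)) :=
  hf.precomp γ.continuous (iso_mp γ).quasiMeasurePreserving

theorem iso_norm (γ : Eu n ≃ᵢ Eu n) (x : Eu n) : ‖x‖ ≤ ‖γ x‖ + ‖γ 0‖ := by
  have h := γ.dist_eq x 0
  rw [dist_zero_right, dist_eq_norm] at h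
  rw [← h]
  exact norm_sub_le _ _

theorem JZ_iso {f : Eu n → ℤ} (hf : f ∈ JZ (Eu n)) (γ : Eu n ≃ᵢ Eu n) :
    (fun x => f (γ x)) ∈ JZ (Eu n) := by
  obtain ⟨h1, ⟨C, h2⟩, ρ, h3⟩ := hf
  refine ⟨h1.iso γ, ⟨C, fun x => h2 _⟩, ρ + ‖γ 0‖, fun x hx => h3 _ ?_⟩
  linarith [iso_norm γ x]

theorem qmp_coord (i : Fin n) :
    Measure.QuasiMeasurePreserving (EuclideanSpace.proj i : Eu n →L[ℝ] ℝ) volume volume := by
  obtain ⟨c, -, hc⟩ := LinearMap.exists_map_addHaar_eq_smul_addHaar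
    (L := (EuclideanSpace.proj i : Eu n →L[ℝ] ℝ).toLinearMap) volume volume
    (fun t => ⟨EuclideanSpace.single i t, by simp⟩)
  refine ⟨(EuclideanSpace.proj i : Eu n →L[ℝ] ℝ).continuous.measurable, ?_⟩
  have hc' : Measure.map (EuclideanSpace.proj i : Eu n →L[ℝ] ℝ) volume = c • volume := hc
  rw [hc']
  exact Measure.smul_absolutelyContinuous

/-- The subgroup generated by differences under isometries and null functions. -/
def BG (n : ℕ) : AddSubgroup (Eu n → ℤ) :=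
  AddSubgroup.closure {u | (∃ h ∈ JZ (Eu n), ∃ γ : Eu n ≃ᵢ Eu n, u = fun x => h (γ x) - h x) ∨
    ∀ᵐ x, u x = 0}

theorem BG_diff {h : Eu n → ℤ} (hh : h ∈ JZ (Eu n)) (γ : Eu n ≃ᵢ Eu n) :
    (fun x => h (γ x) - h x) ∈ BG n :=
  AddSubgroup.subset_closure (Or.inl ⟨h, hh, γ, rfl⟩)

theorem BG_congr {u v : Eu n → ℤ} (hu : u ∈ BG n) (h : ∀ᵐ x, v x = u x) : v ∈ BG n := by
  have h1 : v - u ∈ BG n := AddSubgroup.subset_closure (Or.inr (h.mono fun x hx => by simp [hx]))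
  simpa using add_mem h1 hu

theorem BT_le_BG : BB (JZ (Eu n)) ≤ BG n := by
  refine AddSubgroup.closure_mono ?_
  rintro u (⟨h, hh, t, rfl⟩ | hu)
  · exact Or.inl ⟨h, hh, IsometryEquiv.addRight t, rfl⟩
  · exact Or.inr hu

theorem BT_iso {u : Eu n → ℤ} (hu : u ∈ BB (JZ (Eu n))) (γ : Eu n ≃ᵢ Eu n) :
    (fun x => u (γ x)) ∈ BB (JZ (Eu n)) := by
  induction hu using AddSubgroup.closure_induction with
  | mem u hu =>
    rcases hu with ⟨h, hh, t, rfl⟩ | hu
    · obtain ⟨t', ht'⟩ := iso_conj γ t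
      simp only [← ht']
      exact BB_diff (JZ_iso hh γ) t'
    · exact BB_congr (zero_mem _) (ae_iso hu γ)
  | zero => exact zero_mem _
  | add u v _ _ hu hv => exact add_mem hu hv
  | neg u _ hu => exact neg_mem hu

theorem tf_G (hn : 0 < n) {k : ℕ} (hk : 0 < k) {f : Eu n → ℤ} (hf : f ∈ JZ (Eu n))
    (hkf : (fun x => (k : ℤ) * f x) ∈ BG n) : f ∈ BG n := by
  let i : Fin n := ⟨0, hn⟩
  have he : (EuclideanSpace.proj i : Eu n →L[ℝ] ℝ) (EuclideanSpace.single i 1) = 1 := by simp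
  have hq := qmp_coord i
  have key : ∀ u ∈ BG n, ∃ c ∈ JZ (Eu n), c ∈ BG n ∧
      (fun x => u x - k * c x) ∈ BB (JZ (Eu n)) := by
    intro u hu
    induction hu using AddSubgroup.closure_induction with
    | mem u hu =>
      rcases hu with ⟨h, hh, γ, rfl⟩ | hu
      · obtain ⟨h', hh', hb⟩ := div_T he hq hk hh
        refine ⟨_, sub_mem (JZ_iso hh' γ) hh', BG_diff hh' γ, ?_⟩
        refine BB_congr (sub_mem (BT_iso hb γ) hb) (Eventually.of_forall fun x => ?_)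
        simp only [Pi.sub_apply]
        ring
      · refine ⟨0, zero_mem _, zero_mem _, BB_congr (zero_mem _) ?_⟩
        filter_upwards [hu] with x hx
        simp [hx]
    | zero => exact ⟨0, zero_mem _, zero_mem _, BB_congr (zero_mem _) (by simp)⟩
    | add u v _ _ hu hv =>
      obtain ⟨c, h1, h2, h3⟩ := hu
      obtain ⟨c', h4, h5, h6⟩ := hv
      refine ⟨_, add_mem h1 h4, add_mem h2 h5,
        BB_congr (add_mem h3 h6) (Eventually.of_forall fun x => ?_)⟩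
      simp only [Pi.add_apply]
      ring
    | neg u _ hu =>
      obtain ⟨c, h1, h2, h3⟩ := hu
      refine ⟨_, neg_mem h1, neg_mem h2,
        BB_congr (neg_mem h3) (Eventually.of_forall fun x => ?_)⟩
      simp only [Pi.neg_apply]
      ring
  obtain ⟨c, h1, h2, h3⟩ := key _ hkf
  have h4 : f - c ∈ BB (JZ (Eu n)) := by
    refine tf_T he hq hk (sub_mem hf h1) (BB_congr h3 (Eventually.of_forall fun x => ?_))
    simp only [Pi.sub_apply]
    ring
  simpa using add_mem (BT_le_BG h4) h2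

/-- Bounded natural valued functions of bounded support, locally constant almost everywhere. -/
def JN (f : Eu n → ℕ) : Prop :=
  AEC f ∧ (∃ C : ℕ, ∀ x, f x ≤ C) ∧ ∃ ρ : ℝ, ∀ x, ρ < ‖x‖ → f x = 0

theorem JN.add {f g : Eu n → ℕ} (hf : JN f) (hg : JN g) : JN (fun x => f x + g x) := by
  obtain ⟨h1, ⟨C, h2⟩, ρ, h3⟩ := hf
  obtain ⟨h4, ⟨C', h5⟩, ρ', h6⟩ := hg
  refine ⟨h1.comp₂ h4 (· + ·), ⟨C + C', fun x => add_le_add (h2 x) (h5 x)⟩, max ρ ρ',
    fun x hx => ?_⟩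
  simp [h3 x ((le_max_left _ _).trans_lt hx), h6 x ((le_max_right _ _).trans_lt hx)]

theorem JN.of_le {f g : Eu n → ℕ} (hg : JN g) (hf : AEC f) (h : ∀ x, f x ≤ g x) : JN f := by
  obtain ⟨-, ⟨C, h2⟩, ρ, h3⟩ := hg
  exact ⟨hf, ⟨C, fun x => (h x).trans (h2 x)⟩, ρ, fun x hx => by
    have := h x
    rw [h3 x hx] at this
    omega⟩

theorem JN.min {f g : Eu n → ℕ} (hf : JN f) (hg : JN g) : JN (fun x => min (f x) (g x)) :=
  hf.of_le (hf.1.comp₂ hg.1 Min.min) fun _ => min_le_left _ _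

theorem JN.sub {f g : Eu n → ℕ} (hf : JN f) (hg : JN g) : JN (fun x => f x - g x) :=
  hf.of_le (hf.1.comp₂ hg.1 (· - ·)) fun _ => Nat.sub_le _ _

theorem JN.mul {f : Eu n → ℕ} (hf : JN f) (c : ℕ) : JN (fun x => c * f x) := by
  obtain ⟨h1, ⟨C, h2⟩, ρ, h3⟩ := hf
  exact ⟨h1.comp (c * ·), ⟨c * C, fun x => Nat.mul_le_mul_left _ (h2 x)⟩, ρ,
    fun x hx => by simp [h3 x hx]⟩

theorem JN.zero : JN (fun _ : Eu n => 0) := ⟨AEC.const 0, ⟨0, fun _ => le_rfl⟩, 0, fun _ _ => rfl⟩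

theorem JN.iso {f : Eu n → ℕ} (hf : JN f) (γ : Eu n ≃ᵢ Eu n) : JN (fun x => f (γ x)) := by
  obtain ⟨h1, ⟨C, h2⟩, ρ, h3⟩ := hf
  refine ⟨h1.iso γ, ⟨C, fun x => h2 _⟩, ρ + ‖γ 0‖, fun x hx => h3 _ ?_⟩
  linarith [iso_norm γ x]

theorem JN.sum {ι : Type*} (s : Finset ι) {f : ι → Eu n → ℕ} (hf : ∀ i, JN (f i)) :
    JN (fun x => ∑ i ∈ s, f i x) := by
  classical
  induction s using Finset.induction_on with
  | empty => simpa using JN.zero
  | insert a s ha ih =>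
    simp only [Finset.sum_insert ha]
    exact (hf a).add ih

/-- Equidecomposability of multiplicity functions, up to null sets. -/
inductive Eqv : (Eu n → ℕ) → (Eu n → ℕ) → Prop
  | base (f g : Eu n → ℕ) (γ : Eu n ≃ᵢ Eu n) : JN f → JN g → (∀ᵐ x, f x = g (γ x)) → Eqv f g
  | add (f g f1 g1 f2 g2 : Eu n → ℕ) : JN f → JN g → Eqv f1 g1 → Eqv f2 g2 →
      (∀ᵐ x, f x = f1 x + f2 x) → (∀ᵐ x, g x = g1 x + g2 x) → Eqv f g

theorem Eqv.left {f g : Eu n → ℕ} (h : Eqv f g) : JN f := by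
  cases h <;> assumption

theorem Eqv.right {f g : Eu n → ℕ} (h : Eqv f g) : JN g := by
  cases h <;> assumption

theorem Eqv.of_ae {f g : Eu n → ℕ} (hf : JN f) (hg : JN g) (h : ∀ᵐ x, f x = g x) : Eqv f g :=
  Eqv.base f g (IsometryEquiv.refl _) hf hg h

theorem Eqv.refl {f : Eu n → ℕ} (hf : JN f) : Eqv f f :=
  Eqv.of_ae hf hf (Eventually.of_forall fun _ => rfl)

theorem Eqv.add' {f1 g1 f2 g2 : Eu n → ℕ} (h1 : Eqv f1 g1) (h2 : Eqv f2 g2) :
    Eqv (fun x => f1 x + f2 x) (fun x => g1 x + g2 x) :=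
  Eqv.add _ _ f1 g1 f2 g2 (h1.left.add h2.left) (h1.right.add h2.right) h1 h2
    (Eventually.of_forall fun _ => rfl) (Eventually.of_forall fun _ => rfl)

theorem Eqv.symm {f g : Eu n → ℕ} (h : Eqv f g) : Eqv g f := by
  induction h with
  | base f g γ hf hg h =>
    refine Eqv.base g f γ.symm hg hf ?_
    filter_upwards [ae_iso h γ.symm] with x hx
    rw [hx, γ.apply_symm_apply]
  | add f g f1 g1 f2 g2 hf hg _ _ h1 h2 ih1 ih2 =>
    exact Eqv.add g f g1 f1 g2 f2 hg hf ih1 ih2 h2 h1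

theorem Eqv.split {f g : Eu n → ℕ} (h : Eqv f g) : ∀ g1 g2 : Eu n → ℕ, JN g1 → JN g2 →
    (∀ᵐ x, g x = g1 x + g2 x) →
    ∃ f1 f2, Eqv f1 g1 ∧ Eqv f2 g2 ∧ ∀ᵐ x, f x = f1 x + f2 x := by
  induction h with
  | base f g γ hf hg h =>
    intro g1 g2 h1 h2 h3
    refine ⟨_, _, Eqv.base _ g1 γ (h1.iso γ) h1 (Eventually.of_forall fun _ => rfl),
      Eqv.base _ g2 γ (h2.iso γ) h2 (Eventually.of_forall fun _ => rfl), ?_⟩
    filter_upwards [h, ae_iso h3 γ] with x hx hx'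
    rw [hx, hx']
  | add f g b1 a1 b2 a2 hf hg e1 e2 h1 h2 ih1 ih2 =>
    intro g1 g2 h3 h4 h5
    have j11 := e1.right.min h3
    have j12 := e1.right.sub j11
    have j21 := h3.sub j11
    have j22 := e2.right.sub j21
    obtain ⟨c11, c12, k11, k12, k1⟩ := ih1 _ _ j11 j12
      (Eventually.of_forall fun x => by omega)
    obtain ⟨c21, c22, k21, k22, k2⟩ := ih2 _ _ j21 j22 (by
      filter_upwards [h2, h5] with x hx hx'
      omega)
    refine ⟨fun x => c11 x + c21 x, fun x => c12 x + c22 x, ?_, ?_, ?_⟩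
    · exact Eqv.add _ _ _ _ _ _ (k11.left.add k21.left) h3 k11 k21
        (Eventually.of_forall fun _ => rfl) (Eventually.of_forall fun x => by omega)
    · refine Eqv.add _ _ _ _ _ _ (k12.left.add k22.left) h4 k12 k22
        (Eventually.of_forall fun _ => rfl) ?_
      filter_upwards [h2, h5] with x hx hx'
      omega
    · filter_upwards [h1, k1, k2] with x hx hx1 hx2
      omega

theorem Eqv.iso_right {f g : Eu n → ℕ} (h : Eqv f g) (γ : Eu n ≃ᵢ Eu n) :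
    ∀ k : Eu n → ℕ, JN k → (∀ᵐ x, g x = k (γ x)) → Eqv f k := by
  induction h with
  | base f g γ' hf hg h =>
    intro k hk h1
    refine Eqv.base f k (γ'.trans γ) hf hk ?_
    filter_upwards [h, ae_iso h1 γ'] with x hx hx'
    rw [hx, hx']
    rfl
  | add f g f1 g1 f2 g2 hf hg e1 e2 h1 h2 ih1 ih2 =>
    intro k hk h3
    refine Eqv.add f k f1 _ f2 _ hf hk
      (ih1 _ (e1.right.iso γ.symm) (Eventually.of_forall fun x => by simp))
      (ih2 _ (e2.right.iso γ.symm) (Eventually.of_forall fun x => by simp)) h1 ?_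
    filter_upwards [ae_iso h2 γ.symm, ae_iso h3 γ.symm] with x hx hx'
    rw [← hx, hx', γ.apply_symm_apply]

theorem Eqv.trans' {g k : Eu n → ℕ} (h : Eqv g k) : ∀ f, Eqv f g → Eqv f k := by
  induction h with
  | base g k γ hg hk h =>
    intro f hf
    exact hf.iso_right γ k hk h
  | add g k g1 k1 g2 k2 hg hk e1 e2 h1 h2 ih1 ih2 =>
    intro f hf
    obtain ⟨f1, f2, c1, c2, c⟩ := hf.split g1 g2 e1.left e2.left h1
    exact Eqv.add f k f1 k1 f2 k2 hf.left hk (ih1 _ c1) (ih2 _ c2) c h2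

theorem Eqv.trans {f g k : Eu n → ℕ} (h1 : Eqv f g) (h2 : Eqv g k) : Eqv f k := h2.trans' f h1

theorem Eqv.sum {ι : Type*} (s : Finset ι) {f g : ι → Eu n → ℕ} (h : ∀ i, Eqv (f i) (g i)) :
    Eqv (fun x => ∑ i ∈ s, f i x) (fun x => ∑ i ∈ s, g i x) := by
  classical
  induction s using Finset.induction_on with
  | empty => simpa using Eqv.refl JN.zero
  | insert a s ha ih =>
    simp only [Finset.sum_insert ha]
    exact (h a).add' ih

/-- Total mass. -/
noncomputable def vol (f : Eu n → ℕ) : ℝ≥0∞ := ∫⁻ x, (f x : ℝ≥0∞)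

theorem JN.aem {f : Eu n → ℕ} (hf : JN f) : AEMeasurable (fun x => (f x : ℝ≥0∞)) volume :=
  (hf.1.comp (fun t : ℕ => (t : ℝ≥0∞))).aemeasurable

theorem vol_congr {f g : Eu n → ℕ} (h : ∀ᵐ x, f x = g x) : vol f = vol g :=
  lintegral_congr_ae (h.mono fun x hx => by simp only [hx])

theorem vol_mono {f g : Eu n → ℕ} (h : ∀ᵐ x, f x ≤ g x) : vol f ≤ vol g :=
  lintegral_mono_ae (h.mono fun x hx => by exact_mod_cast hx)

theorem vol_add {f g : Eu n → ℕ} (hf : JN f) : vol (fun x => f x + g x) = vol f + vol g := by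
  unfold vol
  push_cast
  exact lintegral_add_left' hf.aem _

theorem vol_mul {f : Eu n → ℕ} (hf : JN f) (c : ℕ) : vol (fun x => c * f x) = c * vol f := by
  unfold vol
  push_cast
  exact lintegral_const_mul'' _ hf.aem

theorem bound_fin (C : ℕ) (ρ : ℝ) :
    ∫⁻ x, (Metric.closedBall (0 : Eu n) ρ).indicator (fun _ => (C : ℝ≥0∞)) x ≠ ∞ := by
  rw [lintegral_indicator_const Metric.isClosed_closedBall.measurableSet]
  exact ENNReal.mul_ne_top (by simp) measure_closedBall_lt_top.ne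

theorem JN.vol_ne_top {f : Eu n → ℕ} (hf : JN f) : vol f ≠ ∞ := by
  obtain ⟨-, ⟨C, h2⟩, ρ, h3⟩ := hf
  refine ne_top_of_le_ne_top (bound_fin C ρ) (lintegral_mono fun x => ?_)
  by_cases hx : x ∈ Metric.closedBall (0 : Eu n) ρ
  · rw [indicator_of_mem hx]
    exact Nat.cast_le.2 (h2 x)
  · rw [h3 x (by simpa using hx)]
    simp

theorem Eqv.vol_eq {f g : Eu n → ℕ} (h : Eqv f g) : vol f = vol g := by
  induction h with
  | base f g γ hf hg h =>
    rw [vol_congr h]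
    exact (iso_mp γ).lintegral_comp_emb γ.toHomeomorph.measurableEmbedding
      (fun x => (g x : ℝ≥0∞))
  | add f g f1 g1 f2 g2 hf hg e1 e2 h1 h2 ih1 ih2 =>
    rw [vol_congr h1, vol_congr h2, vol_add e1.left, vol_add e1.right, ih1, ih2]

end Pool.Agent.H173Z.Canc
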