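import Pool.Agent.H173Z.Canc.Glue

set_option autoImplicit false
set_option linter.unusedSectionVars false

open MeasureTheory Filter Topology Set

namespace Pool.Agent.H173Z.Canc

variable {E : Type} [NormedAddCommGroup E] [NormedSpace ℝ E] [MeasureSpace E] [BorelSpace E]
  [(volume : Measure E).IsAddRightInvariant]

theorem JP_mono {ℓ : E →L[ℝ] ℝ} {e : E} {ρ ρ' : ℝ} {K : Type} [AddCommGroup K] (h : ρ ≤ ρ')
    {f : E → K} (hf : f ∈ JP ℓ e ρ K) : f ∈ JP ℓ e ρ' K :=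
  ⟨hf.1, hf.2.1, fun x hx => hf.2.2 x (h.trans_lt hx)⟩

theorem JP_comp {ℓ : E →L[ℝ] ℝ} {e : E} {ρ : ℝ} {K K' : Type} [AddCommGroup K]
    [AddCommGroup K'] {f : E → K} (hf : f ∈ JP ℓ e ρ K) (φ : K → K') (h0 : φ 0 = 0) :
    (fun x => φ (f x)) ∈ JP ℓ e ρ K' :=
  ⟨hf.1.comp φ, fun x => by simp only [hf.2.1], fun x hx => by simp only [hf.2.2 x hx, h0]⟩

/-- Bounded integer valued periodic functions, supported in some cylinder. -/
def JPZ (ℓ : E →L[ℝ] ℝ) (e : E) : AddSubgroup (E → ℤ) where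
  carrier := {f | (∃ ρ, f ∈ JP ℓ e ρ ℤ) ∧ ∃ C : ℤ, ∀ x, |f x| ≤ C}
  add_mem' := by
    rintro f g ⟨⟨ρ, h1⟩, C, h2⟩ ⟨⟨ρ', h3⟩, C', h4⟩
    exact ⟨⟨max ρ ρ', add_mem (JP_mono (le_max_left _ _) h1) (JP_mono (le_max_right _ _) h3)⟩,
      C + C', fun x => (abs_add_le _ _).trans (add_le_add (h2 x) (h4 x))⟩
  zero_mem' := ⟨⟨0, zero_mem _⟩, 0, fun _ => le_rfl⟩
  neg_mem' := by
    rintro f ⟨⟨ρ, h1⟩, C, h2⟩
    exact ⟨⟨ρ, neg_mem h1⟩, C, fun x => by simpa using h2 x⟩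

/-- Bounded integer valued functions of bounded support, locally constant almost everywhere. -/
def JZ (E : Type) [NormedAddCommGroup E] [MeasureSpace E] : AddSubgroup (E → ℤ) where
  carrier := {f | AEC f ∧ (∃ C : ℤ, ∀ x, |f x| ≤ C) ∧ ∃ ρ : ℝ, ∀ x, ρ < ‖x‖ → f x = 0}
  add_mem' := by
    rintro f g ⟨h1, ⟨C, h2⟩, ρ, h3⟩ ⟨h4, ⟨C', h5⟩, ρ', h6⟩
    refine ⟨h1.comp₂ h4 (· + ·), ⟨C + C', fun x =>
      (abs_add_le _ _).trans (add_le_add (h2 x) (h5 x))⟩, max ρ ρ', fun x hx => ?_⟩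
    simp [h3 x ((le_max_left _ _).trans_lt hx), h6 x ((le_max_right _ _).trans_lt hx)]
  zero_mem' := ⟨AEC.const 0, ⟨0, fun _ => le_rfl⟩, 0, fun _ _ => rfl⟩
  neg_mem' := by
    rintro f ⟨h1, ⟨C, h2⟩, ρ, h3⟩
    exact ⟨h1.comp (fun t => -t), ⟨C, fun x => by simpa using h2 x⟩, ρ,
      fun x hx => by simp [h3 x hx]⟩

/-- The subgroup generated by translation differences of members of `J` and null functions. -/
def BB (J : AddSubgroup (E → ℤ)) : AddSubgroup (E → ℤ) :=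
  AddSubgroup.closure {u | (∃ h ∈ J, ∃ t : E, u = fun x => h (x + t) - h x) ∨ ∀ᵐ x, u x = 0}

theorem BB_diff {J : AddSubgroup (E → ℤ)} {h : E → ℤ} (hh : h ∈ J) (t : E) :
    (fun x => h (x + t) - h x) ∈ BB J :=
  AddSubgroup.subset_closure (Or.inl ⟨h, hh, t, rfl⟩)

theorem BB_congr {J : AddSubgroup (E → ℤ)} {u v : E → ℤ} (hu : u ∈ BB J)
    (h : ∀ᵐ x, v x = u x) : v ∈ BB J := by
  have h1 : v - u ∈ BB J := AddSubgroup.subset_closure (Or.inr (h.mono fun x hx => by simp [hx]))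
  simpa using add_mem h1 hu

variable {ℓ : E →L[ℝ] ℝ} {e : E}

theorem JPZ_shift {f : E → ℤ} (hf : f ∈ JPZ ℓ e) (t : E) : (fun x => f (x + t)) ∈ JPZ ℓ e := by
  obtain ⟨⟨ρ, h1, h2, h3⟩, C, h4⟩ := hf
  refine ⟨⟨ρ + ‖t - ℓ t • e‖, h1.shift t, fun x => ?_, fun x hx => h3 _ ?_⟩, C, fun x => h4 _⟩
  · show f (x + e + t) = f (x + t)
    rw [add_right_comm, h2]
  · have e1 : x - ℓ x • e = (x + t - ℓ (x + t) • e) - (t - ℓ t • e) := by
      rw [map_add, add_smul]; abel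
    have := norm_sub_le (x + t - ℓ (x + t) • e) (t - ℓ t • e)
    rw [← e1] at this
    linarith

theorem JZ_shift {f : E → ℤ} (hf : f ∈ JZ E) (t : E) : (fun x => f (x + t)) ∈ JZ E := by
  obtain ⟨h1, ⟨C, h2⟩, ρ, h3⟩ := hf
  refine ⟨h1.shift t, ⟨C, fun x => h2 _⟩, ρ + ‖t‖, fun x hx => h3 _ ?_⟩
  have := norm_sub_le (x + t) t
  rw [add_sub_cancel_right] at this
  linarith

theorem lift_mem {k : ℕ} [NeZero k] {ρ : ℝ} {β : E → ZMod k} (hβ : β ∈ JP ℓ e ρ (ZMod k)) :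
    (fun x => ((β x).val : ℤ)) ∈ JPZ ℓ e := by
  refine ⟨⟨ρ, JP_comp hβ (fun t => (t.val : ℤ)) (by simp)⟩, k, fun x => ?_⟩
  have := ZMod.val_lt (β x)
  show |((β x).val : ℤ)| ≤ k
  rw [abs_of_nonneg (by positivity)]
  exact_mod_cast this.le

theorem divide {k : ℕ} {u : E → ℤ} (hu : u ∈ JPZ ℓ e)
    (h : ∀ᵐ x, ((u x : ℤ) : ZMod k) = 0) : ∃ w ∈ JPZ ℓ e, ∀ᵐ x, u x = k * w x := by
  obtain ⟨⟨ρ, h1⟩, C, h2⟩ := hu
  refine ⟨fun x => u x / k, ⟨⟨ρ, JP_comp h1 (fun t => t / (k : ℤ)) (by simp)⟩, C, fun x => ?_⟩, ?_⟩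
  · exact (Int.abs_ediv_le_abs _ _).trans (h2 x)
  · filter_upwards [h] with x hx
    exact (Int.mul_ediv_cancel' ((ZMod.intCast_zmod_eq_zero_iff_dvd _ _).1 hx)).symm

theorem div_per {α : Fin 3 → ℝ} {π : ℕ → ℝ → Fin 3 → ℤ} (T : TowerData α π) (he : ℓ e = 1)
    (hq : Measure.QuasiMeasurePreserving ℓ volume volume) {k : ℕ} (hk : 0 < k)
    {h : E → ℤ} (hh : h ∈ JPZ ℓ e) :
    ∃ h' ∈ JPZ ℓ e, ∃ a ∈ JPZ ℓ e, ∃ b ∈ JPZ ℓ e, ∀ᵐ x,
      h x = k * h' x + (a (x + α 0 • e) - a x) + (b (x + α 1 • e) - b x) := by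
  have : NeZero k := ⟨hk.ne'⟩
  obtain ⟨ρ, h1⟩ := hh.1
  obtain ⟨a, b, ha, hb, hab⟩ := solve0 T he hq (JP_comp h1 (fun t => (t : ZMod k)) (by simp))
  have ha' := lift_mem ha
  have hb' := lift_mem hb
  obtain ⟨w, hw, hw'⟩ := divide (k := k) (sub_mem (sub_mem hh (sub_mem (JPZ_shift ha' (α 0 • e)) ha'))
    (sub_mem (JPZ_shift hb' (α 1 • e)) hb')) (by
      filter_upwards [hab] with x hx
      simp only [Pi.sub_apply]
      push_cast
      simp only [ZMod.natCast_val, ZMod.cast_id', id]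
      linear_combination hx)
  refine ⟨w, hw, _, ha', _, hb', ?_⟩
  filter_upwards [hw'] with x hx
  simp only [Pi.sub_apply] at hx
  linear_combination hx

theorem tf_per {α : Fin 3 → ℝ} {π : ℕ → ℝ → Fin 3 → ℤ} (T : TowerData α π) (he : ℓ e = 1)
    (hq : Measure.QuasiMeasurePreserving ℓ volume volume) {k : ℕ} (hk : 0 < k)
    {f : E → ℤ} (hkf : (fun x => (k : ℤ) * f x) ∈ BB (JPZ ℓ e)) :
    f ∈ BB (JPZ ℓ e) := by
  have : NeZero k := ⟨hk.ne'⟩
  have key : ∀ u ∈ BB (JPZ ℓ e), ∃ c ∈ BB (JPZ ℓ e), ∃ a ∈ JPZ ℓ e, ∃ b ∈ JPZ ℓ e, ∀ᵐ x,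
      u x = k * c x + (a (x + α 0 • e) - a x) + (b (x + α 1 • e) - b x) := by
    intro u hu
    induction hu using AddSubgroup.closure_induction with
    | mem u hu =>
      rcases hu with ⟨h, hh, t, rfl⟩ | hu
      · obtain ⟨h', hh', a, ha, b, hb, hab⟩ := div_per T he hq hk hh
        refine ⟨_, BB_diff hh' t, _, sub_mem (JPZ_shift ha t) ha, _,
          sub_mem (JPZ_shift hb t) hb, ?_⟩
        filter_upwards [hab, ae_shift hab t] with x h1 h2
        simp only [Pi.sub_apply]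
        rw [add_right_comm x (α 0 • e) t, add_right_comm x (α 1 • e) t]
        linear_combination h2 - h1
      · refine ⟨0, zero_mem _, 0, zero_mem _, 0, zero_mem _, ?_⟩
        filter_upwards [hu] with x hx
        simp [hx]
    | zero => exact ⟨0, zero_mem _, 0, zero_mem _, 0, zero_mem _, by simp⟩
    | add u v _ _ hu hv =>
      obtain ⟨c, hc, a, ha, b, hb, h1⟩ := hu
      obtain ⟨c', hc', a', ha', b', hb', h2⟩ := hv
      refine ⟨_, add_mem hc hc', _, add_mem ha ha', _, add_mem hb hb', ?_⟩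
      filter_upwards [h1, h2] with x h1 h2
      simp only [Pi.add_apply]
      linear_combination h1 + h2
    | neg u _ hu =>
      obtain ⟨c, hc, a, ha, b, hb, h1⟩ := hu
      refine ⟨_, neg_mem hc, _, neg_mem ha, _, neg_mem hb, ?_⟩
      filter_upwards [h1] with x h1
      simp only [Pi.neg_apply]
      linear_combination -h1
  obtain ⟨c, hc, a, ha, b, hb, hab⟩ := key _ hkf
  obtain ⟨ρ, ha1⟩ := ha.1
  obtain ⟨ρ', hb1⟩ := hb.1
  obtain ⟨β, hβ, hβ'⟩ := solve1 T he hq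
    (JP_comp (JP_mono (le_max_left ρ ρ') ha1) (fun t => (t : ZMod k)) (by simp))
    (JP_comp (JP_mono (le_max_right ρ ρ') hb1) (fun t => (t : ZMod k)) (by simp)) (by
      filter_upwards [hab] with x hx
      have := congrArg (fun t : ℤ => (t : ZMod k)) hx
      push_cast at this
      rw [ZMod.natCast_self] at this
      linear_combination -this)
  have hl := fun i => lift_mem (hβ i)
  obtain ⟨a', ha', ha''⟩ := divide (k := k) (sub_mem ha (sub_mem
    (sub_mem (JPZ_shift (hl 2) (α 1 • e)) (hl 2)) (sub_mem (JPZ_shift (hl 1) (α 2 • e)) (hl 1))))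
    (by
      filter_upwards [hβ'] with x hx
      simp only [Pi.sub_apply]
      push_cast
      simp only [ZMod.natCast_val, ZMod.cast_id', id]
      linear_combination -hx.1)
  obtain ⟨b', hb', hb''⟩ := divide (k := k) (sub_mem hb (sub_mem
    (sub_mem (JPZ_shift (hl 0) (α 2 • e)) (hl 0)) (sub_mem (JPZ_shift (hl 2) (α 0 • e)) (hl 2))))
    (by
      filter_upwards [hβ'] with x hx
      simp only [Pi.sub_apply]
      push_cast
      simp only [ZMod.natCast_val, ZMod.cast_id', id]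
      linear_combination -hx.2.1)
  obtain ⟨c', hc', hc''⟩ := divide (k := k) (sub_mem
    (sub_mem (JPZ_shift (hl 1) (α 0 • e)) (hl 1)) (sub_mem (JPZ_shift (hl 0) (α 1 • e)) (hl 0)))
    (by
      filter_upwards [hβ'] with x hx
      simp only [Pi.sub_apply]
      push_cast
      simp only [ZMod.natCast_val, ZMod.cast_id', id]
      linear_combination hx.2.2)
  refine BB_congr (add_mem hc (add_mem (add_mem (BB_diff ha' (α 0 • e)) (BB_diff hb' (α 1 • e)))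
    (neg_mem (BB_diff hc' (α 2 • e))))) ?_
  filter_upwards [hab, ha'', hb'', hc'', ae_shift ha'' (α 0 • e), ae_shift hb'' (α 1 • e),
    ae_shift hc'' (α 2 • e)] with x h0 h1 h2 h3 h4 h5 h6
  simp only [Pi.sub_apply, Pi.add_apply, Pi.neg_apply] at *
  rw [add_right_comm x (α 1 • e) (α 0 • e)] at h5
  rw [add_right_comm x (α 2 • e) (α 0 • e), add_right_comm x (α 2 • e) (α 1 • e)] at h6
  have hk' : (k : ℤ) ≠ 0 := by exact_mod_cast hk.ne'
  apply mul_left_cancel₀ hk'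
  linear_combination h0 + h4 - h1 + h5 - h2 - h6 + h3

/-- Heaviside function. -/
noncomputable def Hv (s : ℝ) : ℤ := if 0 ≤ s then 1 else 0

theorem aec_Hv (a : ℝ) : AEC (fun s : ℝ => Hv (s - a)) := by
  have h : AEC (fun s : ℝ => s ∈ Ici a) := AEC.mem (by simp)
  have := h.comp (fun p : Prop => (open Classical in if p then (1 : ℤ) else 0))
  convert this using 2 with s
  simp [Hv]

/-- The part of a periodic function in a slab, with sign. -/
noncomputable def Wd (ℓ : E →L[ℝ] ℝ) (a b : ℝ) : (E → ℤ) →+ (E → ℤ) where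
  toFun g := fun x => g x * (Hv (ℓ x - a) - Hv (ℓ x - b))
  map_zero' := by funext x; simp
  map_add' := by intro f g; funext x; simp [add_mul]

theorem Wd_apply (a b : ℝ) (g : E → ℤ) (x : E) :
    Wd ℓ a b g x = g x * (Hv (ℓ x - a) - Hv (ℓ x - b)) := rfl

theorem Wd_mem (hq : Measure.QuasiMeasurePreserving ℓ volume volume) (a b : ℝ) {g : E → ℤ}
    (hg : g ∈ JPZ ℓ e) : Wd ℓ a b g ∈ JZ E := by
  obtain ⟨⟨ρ, h1, -, h3⟩, C, h4⟩ := hg
  refine ⟨h1.comp₂ (((aec_Hv a).precomp ℓ.continuous hq).comp₂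
    ((aec_Hv b).precomp ℓ.continuous hq) (· - ·)) (· * ·), ⟨C, fun x => ?_⟩,
    ρ + (|a| + |b|) * ‖e‖, fun x hx => ?_⟩
  · rw [Wd_apply, abs_mul]
    have : |Hv (ℓ x - a) - Hv (ℓ x - b)| ≤ 1 := by
      unfold Hv; split_ifs <;> simp
    exact (mul_le_of_le_one_right (abs_nonneg _) this).trans (h4 x)
  · rw [Wd_apply]
    by_cases hc : ρ < ‖x - ℓ x • e‖
    · rw [h3 x hc, zero_mul]
    · have h5 : ‖x‖ ≤ ‖x - ℓ x • e‖ + |ℓ x| * ‖e‖ := by
        have := norm_add_le (x - ℓ x • e) (ℓ x • e)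
        rwa [sub_add_cancel, norm_smul, Real.norm_eq_abs] at this
      have h6 : |a| + |b| < |ℓ x| := by
        by_contra h7
        have := mul_le_mul_of_nonneg_right (not_lt.1 h7) (norm_nonneg e)
        linarith
      have : Hv (ℓ x - a) = Hv (ℓ x - b) := by
        unfold Hv
        have := le_abs_self a
        have := neg_abs_le a
        have := le_abs_self b
        have := neg_abs_le b
        have := abs_nonneg a
        have := abs_nonneg b
        rcases lt_abs.1 h6 with h | h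
        · rw [if_pos (by linarith), if_pos (by linarith)]
        · rw [if_neg (by linarith), if_neg (by linarith)]
      rw [this, sub_self, mul_zero]

theorem Wd_slide (he : ℓ e = 1) (hq : Measure.QuasiMeasurePreserving ℓ volume volume) (a s : ℝ)
    {g : E → ℤ} (hg : g ∈ JPZ ℓ e) :
    Wd ℓ (a + s) (a + s + 1) g - Wd ℓ a (a + 1) g ∈ BB (JZ E) := by
  refine BB_congr (BB_diff (Wd_mem hq a (a + s) hg) (-e)) (Eventually.of_forall fun x => ?_)
  obtain ⟨ρ, -, h2, -⟩ := hg.1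
  have e1 : g (x + -e) = g x := by
    rw [← h2 (x + -e)]; simp
  have e2 : ℓ (x + -e) = ℓ x - 1 := by rw [map_add, map_neg, he]; ring
  simp only [Pi.sub_apply, Wd_apply, e1, e2]
  rw [show ℓ x - 1 - a = ℓ x - (a + 1) by ring, show ℓ x - 1 - (a + s) = ℓ x - (a + s + 1) by ring]
  ring

theorem Wd_BB (he : ℓ e = 1) (hq : Measure.QuasiMeasurePreserving ℓ volume volume) (a : ℝ)
    {u : E → ℤ} (hu : u ∈ BB (JPZ ℓ e)) : Wd ℓ a (a + 1) u ∈ BB (JZ E) := by
  induction hu using AddSubgroup.closure_induction with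
  | mem u hu =>
    rcases hu with ⟨h, hh, t, rfl⟩ | hu
    · refine BB_congr (add_mem (BB_diff (Wd_mem hq (a + ℓ t) (a + ℓ t + 1) hh) t)
        (Wd_slide he hq a (ℓ t) hh)) (Eventually.of_forall fun x => ?_)
      simp only [Pi.sub_apply, Pi.add_apply, Wd_apply, map_add]
      rw [show ℓ x + ℓ t - (a + ℓ t) = ℓ x - a by ring,
        show ℓ x + ℓ t - (a + ℓ t + 1) = ℓ x - (a + 1) by ring]
      ring
    · refine BB_congr (zero_mem _) ?_
      filter_upwards [hu] with x hx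
      simp [Wd_apply, hx]
  | zero => rw [map_zero]; exact zero_mem _
  | add u v _ _ hu hv => rw [map_add]; exact add_mem hu hv
  | neg u _ hu => rw [map_neg]; exact neg_mem hu

/-- Folding the space into the slab `-1/2 ≤ ℓ < 1/2`. -/
noncomputable def fold (ℓ : E →L[ℝ] ℝ) (e : E) (x : E) : E := x + (-(⌊ℓ x + 1 / 2⌋ : ℝ)) • e

theorem fold_eq (he : ℓ e = 1) {x : E} (j : ℤ) (h : |ℓ (x + (j : ℝ) • e)| < 1 / 2) :
    fold ℓ e x = x + (j : ℝ) • e := by
  rw [map_add, map_smul, he, smul_eq_mul, mul_one, abs_lt] at h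
  have : ⌊ℓ x + 1 / 2⌋ = -j := by
    rw [Int.floor_eq_iff]
    push_cast
    constructor <;> linarith [h.1, h.2]
  rw [fold, this]
  simp

theorem fold_mem (he : ℓ e = 1) (hq : Measure.QuasiMeasurePreserving ℓ volume volume)
    {f : E → ℤ} (hf : f ∈ JZ E) : (fun x => f (fold ℓ e x)) ∈ JPZ ℓ e := by
  obtain ⟨h1, ⟨C, h2⟩, ρ, h3⟩ := hf
  refine ⟨⟨ρ + ‖e‖, ?_, fun x => ?_, fun x hx => h3 _ ?_⟩, C, fun x => h2 _⟩
  · have h4 : AEC (fun x : E => ⌊ℓ x + 1 / 2⌋) := by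
      simpa using (aec_floor_affine 1 (1 / 2) one_ne_zero).precomp ℓ.continuous hq
    exact AEC.select (F := fun (j : ℤ) x => f (x + (-(j : ℝ)) • e)) h4 fun j => h1.shift _
  · show f (fold ℓ e (x + e)) = f (fold ℓ e x)
    congr 1
    unfold fold
    rw [map_add, he, add_right_comm (ℓ x), Int.floor_add_one]
    push_cast
    rw [neg_add, add_smul, neg_one_smul]
    abel
  · have e1 : x - ℓ x • e = fold ℓ e x - (ℓ x - ⌊ℓ x + 1 / 2⌋) • e := by
      rw [fold, sub_smul, neg_smul]; abel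
    have h5 := norm_sub_le (fold ℓ e x) ((ℓ x - ⌊ℓ x + 1 / 2⌋) • e)
    rw [← e1, norm_smul, Real.norm_eq_abs] at h5
    have h6 : |ℓ x - ⌊ℓ x + 1 / 2⌋| ≤ 1 := by
      rw [abs_le]
      constructor <;> linarith [Int.floor_le (ℓ x + 1 / 2), Int.lt_floor_add_one (ℓ x + 1 / 2)]
    have := mul_le_of_le_one_left (norm_nonneg e) h6
    linarith

theorem fold_ae {P : E → Prop} (h : ∀ᵐ x, P x) : ∀ᵐ x, P (fold ℓ e x) := by
  have : ∀ᵐ x, ∀ j : ℤ, P (x + (-(j : ℝ)) • e) := ae_all_iff.2 fun j => ae_shift h _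
  filter_upwards [this] with x hx
  exact hx _

theorem fold_shift (he : ℓ e = 1) {h : E → ℤ} {t : E} (h1 : ∀ x, h x ≠ 0 → |ℓ x| < 1 / 2)
    (h2 : ∀ x, h (x + t) ≠ 0 → |ℓ x| < 1 / 2) (x : E) :
    h (fold ℓ e x + t) = h (fold ℓ e (x + t)) := by
  by_cases ha : h (fold ℓ e x + t) = 0
  · by_cases hb : h (fold ℓ e (x + t)) = 0
    · rw [ha, hb]
    · have e1 : fold ℓ e (x + t) = x + ((-⌊ℓ (x + t) + 1 / 2⌋ : ℤ) : ℝ) • e + t := by
        rw [fold]; push_cast; abel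
      rw [e1] at hb ⊢
      rw [fold_eq he _ (h2 _ hb)]
  · have e1 : fold ℓ e x + t = x + t + ((-⌊ℓ x + 1 / 2⌋ : ℤ) : ℝ) • e := by
      rw [fold]; push_cast; abel
    rw [e1] at ha ⊢
    rw [fold_eq he _ (h1 _ ha)]

theorem Wd_fold {f : E → ℤ} (h1 : ∀ x, f x ≠ 0 → |ℓ x| < 1 / 2) :
    Wd ℓ (-1 / 2) (-1 / 2 + 1) (fun x => f (fold ℓ e x)) = f := by
  funext x
  rw [Wd_apply]
  by_cases h : -1 / 2 ≤ ℓ x ∧ ℓ x < 1 / 2
  · have : ⌊ℓ x + 1 / 2⌋ = 0 := by
      rw [Int.floor_eq_iff]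
      push_cast
      constructor <;> linarith [h.1, h.2]
    rw [fold, this, Hv, Hv, if_pos (by linarith [h.1]), if_neg (by linarith [h.2])]
    simp
  · have h0 : f x = 0 := by
      by_contra h0
      have := abs_lt.1 (h1 x h0)
      exact h ⟨by linarith [this.1], this.2⟩
    have : Hv (ℓ x - -1 / 2) = Hv (ℓ x - (-1 / 2 + 1)) := by
      unfold Hv
      by_cases h2 : -1 / 2 ≤ ℓ x
      · have h3 : 1 / 2 ≤ ℓ x := by
          by_contra h3
          exact h ⟨h2, not_le.1 h3⟩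
        rw [if_pos (by linarith), if_pos (by linarith)]
      · rw [if_neg (by linarith), if_neg (by linarith)]
    rw [this, h0]
    simp

theorem small_ev (ℓ : E →L[ℝ] ℝ) {f : E → ℤ} (hf : f ∈ JZ E) :
    ∀ᶠ L : ℝ in atTop, ∀ x, f x ≠ 0 → |(L⁻¹ • ℓ) x| < 1 / 2 := by
  obtain ⟨-, -, ρ, h3⟩ := hf
  filter_upwards [eventually_gt_atTop (2 * (‖ℓ‖ * ρ)), eventually_gt_atTop 0] with L h1 h2 x hx
  have h4 : ‖x‖ ≤ ρ := by
    by_contra h
    exact hx (h3 x (not_le.1 h))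
  have h5 : |ℓ x| ≤ ‖ℓ‖ * ρ := (ℓ.le_opNorm x).trans
    (mul_le_mul_of_nonneg_left h4 (norm_nonneg _))
  rw [smul_apply, smul_eq_mul, abs_mul, abs_of_pos (inv_pos.2 h2),
    inv_mul_lt_iff₀ h2]
  linarith

theorem scale_one (he : ℓ e = 1) {L : ℝ} (hL : 0 < L) : (L⁻¹ • ℓ) (L • e) = 1 := by
  rw [smul_apply, map_smul, he]
  simp [hL.ne']

theorem scale_qmp (hq : Measure.QuasiMeasurePreserving ℓ volume volume) {L : ℝ} (hL : 0 < L) :
    Measure.QuasiMeasurePreserving (L⁻¹ • ℓ : E →L[ℝ] ℝ) volume volume := by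
  have := (qmp_affine L⁻¹ 0 (inv_pos.2 hL).ne').comp hq
  convert this using 1
  funext x
  simp

theorem div_T (he : ℓ e = 1) (hq : Measure.QuasiMeasurePreserving ℓ volume volume) {k : ℕ}
    (hk : 0 < k) {h : E → ℤ} (hh : h ∈ JZ E) :
    ∃ h' ∈ JZ E, (fun x => h x - k * h' x) ∈ BB (JZ E) := by
  obtain ⟨α, π, T⟩ := exists_towerData
  obtain ⟨L, h1, hL⟩ := ((small_ev ℓ hh).and (eventually_gt_atTop 0)).exists
  have he' := scale_one he hL
  have hq' := scale_qmp hq hL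
  obtain ⟨h', hh', a, ha, b, hb, hab⟩ := div_per T he' hq' hk (fold_mem he' hq' hh)
  refine ⟨_, Wd_mem hq' (-1 / 2) (-1 / 2 + 1) hh', ?_⟩
  refine BB_congr (Wd_BB he' hq' (-1 / 2)
    (add_mem (BB_diff ha (α 0 • L • e)) (BB_diff hb (α 1 • L • e)))) ?_
  filter_upwards [hab] with x hx
  have := congrFun (Wd_fold (e := L • e) h1) x
  rw [← this]
  simp only [Wd_apply, Pi.add_apply]
  rw [hx]
  ring

theorem tf_T (he : ℓ e = 1) (hq : Measure.QuasiMeasurePreserving ℓ volume volume) {k : ℕ}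
    (hk : 0 < k) {f : E → ℤ} (hf : f ∈ JZ E) (hkf : (fun x => (k : ℤ) * f x) ∈ BB (JZ E)) :
    f ∈ BB (JZ E) := by
  obtain ⟨α, π, T⟩ := exists_towerData
  have key : ∀ u ∈ BB (JZ E), ∀ᶠ L : ℝ in atTop,
      (fun x => u (fold (L⁻¹ • ℓ) (L • e) x)) ∈ BB (JPZ (L⁻¹ • ℓ) (L • e)) := by
    intro u hu
    induction hu using AddSubgroup.closure_induction with
    | mem u hu =>
      rcases hu with ⟨h, hh, t, rfl⟩ | hu
      · filter_upwards [small_ev ℓ hh, small_ev ℓ (JZ_shift hh t), eventually_gt_atTop 0]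
          with L h1 h2 hL
        have he' := scale_one he hL
        simp only [fold_shift he' h1 h2]
        exact BB_diff (fold_mem he' (scale_qmp hq hL) hh) t
      · exact Eventually.of_forall fun L => BB_congr (zero_mem _) (fold_ae hu)
    | zero => exact Eventually.of_forall fun L => zero_mem _
    | add u v _ _ hu hv =>
      filter_upwards [hu, hv] with L h1 h2
      exact add_mem h1 h2
    | neg u _ hu =>
      filter_upwards [hu] with L h1
      exact neg_mem h1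
  obtain ⟨L, h1, h2, hL⟩ := ((key _ hkf).and ((small_ev ℓ hf).and (eventually_gt_atTop 0))).exists
  have he' := scale_one he hL
  have hq' := scale_qmp hq hL
  have := Wd_BB he' hq' (-1 / 2) (tf_per T he' hq' hk h1)
  rwa [Wd_fold h2] at this

end Pool.Agent.H173Z.Canc
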