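import Pool.Agent.H173Z.Canc.Basic

set_option autoImplicit false

open MeasureTheory Filter Topology Set

namespace Pool.Agent.H173Z.Canc

theorem bad1 (Q : ℕ) (hQ : 0 < Q) (η : ℝ) (hη : 0 ≤ η) :
    volume {x ∈ Ico (0 : ℝ) 1 | ¬ (η < Int.fract (Q * x) ∧ Int.fract (Q * x) + η < 1)} ≤
      ENNReal.ofReal (4 * η) := by
  have hQ' : (0 : ℝ) < Q := by exact_mod_cast hQ
  have hQ1 : (1 : ℝ) ≤ Q := by exact_mod_cast hQ
  have hsub : {x ∈ Ico (0 : ℝ) 1 | ¬ (η < Int.fract (Q * x) ∧ Int.fract (Q * x) + η < 1)} ⊆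
      ⋃ j ∈ Finset.range (Q + 1), Icc ((j - η) / Q) ((j + η) / Q) := by
    rintro x ⟨⟨h0, h1⟩, hx⟩
    have hf0 : 0 ≤ ⌊(Q : ℝ) * x⌋ := Int.floor_nonneg.2 (by positivity)
    have hf1 : ⌊(Q : ℝ) * x⌋ < Q := by
      rw [Int.floor_lt]
      push_cast
      nlinarith
    obtain ⟨j, hj⟩ : ∃ j : ℕ, ⌊(Q : ℝ) * x⌋ = j := ⟨_, (Int.toNat_of_nonneg hf0).symm⟩
    have hfr : Int.fract ((Q : ℝ) * x) = Q * x - j := by
      rw [Int.fract, hj]; simp
    have hn := Int.fract_nonneg ((Q : ℝ) * x)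
    have hl := Int.fract_lt_one ((Q : ℝ) * x)
    simp only [mem_iUnion, Finset.mem_range, mem_Icc, exists_prop]
    by_cases h : η < Int.fract ((Q : ℝ) * x)
    · have h' : 1 ≤ Int.fract ((Q : ℝ) * x) + η := by
        by_contra h'
        exact hx ⟨h, by linarith⟩
      refine ⟨j + 1, by omega, ?_, ?_⟩
      · rw [div_le_iff₀ hQ']; push_cast; linarith
      · rw [le_div_iff₀ hQ']; push_cast; linarith
    · refine ⟨j, by omega, ?_, ?_⟩
      · rw [div_le_iff₀ hQ']; linarith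
      · rw [le_div_iff₀ hQ']; linarith
  refine (measure_mono hsub).trans ((measure_biUnion_finset_le _ _).trans ?_)
  have e : ∀ j : ℕ, volume (Icc (((j : ℝ) - η) / Q) ((j + η) / Q)) =
      ENNReal.ofReal (2 * η / Q) := by
    intro j
    rw [Real.volume_Icc]
    congr 1
    ring
  simp only [e, Finset.sum_const, Finset.card_range, nsmul_eq_mul]
  rw [← ENNReal.ofReal_natCast, ← ENNReal.ofReal_mul (by positivity)]
  refine ENNReal.ofReal_le_ofReal ?_
  push_cast
  rw [← mul_div_assoc, div_le_iff₀ hQ']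
  nlinarith

theorem bad2 (q P : ℕ) (hq : 0 < q) (hP : 0 < P) (u v : ℤ) (huv : u * v ≡ 1 [ZMOD q]) (R : ℕ) :
    volume {x ∈ Ico (0 : ℝ) 1 | ¬ ((R : ℤ) ≤ (⌊((q * P : ℕ) : ℝ) * x⌋ * v) % q ∧
      (⌊((q * P : ℕ) : ℝ) * x⌋ * v) % q + R < q)} ≤ ENNReal.ofReal (2 * R / q) := by
  set Q : ℕ := q * P with hQd
  have hQ : 0 < Q := Nat.mul_pos hq hP
  have hQ' : (0 : ℝ) < Q := by exact_mod_cast hQ
  have hq' : (0 : ℤ) < q := by exact_mod_cast hq
  have hsub : {x ∈ Ico (0 : ℝ) 1 | ¬ ((R : ℤ) ≤ (⌊(Q : ℝ) * x⌋ * v) % q ∧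
      (⌊(Q : ℝ) * x⌋ * v) % q + R < q)} ⊆
      ⋃ tw ∈ (Finset.Ico (0 : ℤ) P) ×ˢ (Finset.Ico (-R : ℤ) R),
        Ico (((tw.1 * q + (u * tw.2) % q : ℤ) : ℝ) / Q)
          ((((tw.1 * q + (u * tw.2) % q : ℤ) : ℝ) + 1) / Q) := by
    rintro x ⟨⟨h0, h1⟩, hx⟩
    set j := ⌊(Q : ℝ) * x⌋ with hj
    have hf0 : 0 ≤ j := Int.floor_nonneg.2 (by positivity)
    have hf1 : j < Q := by
      rw [hj, Int.floor_lt]
      push_cast
      nlinarith
    have hc0 := Int.emod_nonneg (j * v) hq'.ne'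
    have hc1 := Int.emod_lt_of_pos (j * v) hq'
    obtain ⟨w, hw0, hw1, hw⟩ : ∃ w : ℤ, -R ≤ w ∧ w < R ∧ j * v ≡ w [ZMOD q] := by
      by_cases h : (R : ℤ) ≤ (j * v) % q
      · refine ⟨(j * v) % q - q, by omega, by omega, ?_⟩
        exact (Int.mod_modEq _ _).symm.trans (Int.modEq_iff_dvd.2 ⟨-1, by ring⟩)
      · exact ⟨(j * v) % q, by omega, by omega, (Int.mod_modEq _ _).symm⟩
    have hjw : j % q = (u * w) % q := by
      have h1 : j ≡ j * (u * v) [ZMOD q] := by
        simpa using (huv.symm.mul_left j)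
      have h2 : j * (u * v) ≡ u * w [ZMOD q] := by
        have := hw.mul_left u
        rwa [show u * (j * v) = j * (u * v) by ring] at this
      exact h1.trans h2
    have hdec : j / q * q + (u * w) % q = j := by
      rw [← hjw]; exact Int.ediv_mul_add_emod j q
    simp only [mem_iUnion, Finset.mem_product, Finset.mem_Ico, mem_Ico, exists_prop]
    refine ⟨(j / q, w), ⟨⟨Int.ediv_nonneg hf0 hq'.le, ?_⟩, hw0, hw1⟩, ?_, ?_⟩
    · apply Int.ediv_lt_of_lt_mul hq'
      rw [hQd] at hf1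
      push_cast at hf1
      linarith
    · simp only [hdec]
      rw [div_le_iff₀ hQ', mul_comm]
      exact Int.floor_le _
    · simp only [hdec]
      rw [lt_div_iff₀ hQ', mul_comm]
      exact Int.lt_floor_add_one _
  refine (measure_mono hsub).trans ((measure_biUnion_finset_le _ _).trans ?_)
  have e : ∀ j : ℝ, volume (Ico (j / Q) ((j + 1) / Q)) = ENNReal.ofReal (1 / Q) := by
    intro j
    rw [Real.volume_Ico]
    congr 1
    ring
  simp only [e, Finset.sum_const, Finset.card_product, Int.card_Ico, nsmul_eq_mul]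
  rw [← ENNReal.ofReal_natCast, ← ENNReal.ofReal_mul (by positivity)]
  refine ENNReal.ofReal_le_ofReal (le_of_eq ?_)
  have e1 : ((P : ℤ) - 0).toNat = P := by omega
  have e2 : ((R : ℤ) - -R).toNat = 2 * R := by omega
  rw [e1, e2, hQd]
  push_cast
  have : (0 : ℝ) < q := by exact_mod_cast hq
  have : (0 : ℝ) < P := by exact_mod_cast hP
  field_simp

/-- The real number `a₀ α₀ + a₁ α₁ + a₂ α₂`. -/
noncomputable def dot (α : Fin 3 → ℝ) (a : Fin 3 → ℤ) : ℝ := ∑ i, (a i : ℝ) * α i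

theorem dot_add (α : Fin 3 → ℝ) (a b : Fin 3 → ℤ) : dot α (a + b) = dot α a + dot α b := by
  simp [dot, add_mul, Finset.sum_add_distrib]

theorem dot_zero (α : Fin 3 → ℝ) : dot α 0 = 0 := by simp [dot]

theorem dot_neg (α : Fin 3 → ℝ) (a : Fin 3 → ℤ) : dot α (-a) = - dot α a := by
  simp [dot]

theorem dot_sub (α : Fin 3 → ℝ) (a b : Fin 3 → ℤ) : dot α (a - b) = dot α a - dot α b := by
  rw [sub_eq_add_neg, dot_add, dot_neg, sub_eq_add_neg]

theorem rokhlin_aux (α : Fin 3 → ℝ) (q : Fin 3 → ℕ) (hq : ∀ i, 0 < q i)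
    (hcop : Pairwise fun i j => Nat.Coprime (q i) (q j)) (r : Fin 3 → ℤ)
    (hr : ∀ i, IsCoprime (r i) (q i)) (δ : ℝ) (hδ : ∀ i, |α i - r i / q i| ≤ δ) (R : ℕ) :
    ∃ p : ℝ → Fin 3 → ℤ, AEC p ∧ (∀ x, p (x + 1) = p x) ∧ (∃ C : ℕ, ∀ x i, |p x i| ≤ C) ∧
      volume {x ∈ Ico (0 : ℝ) 1 | ¬ ∀ a : Fin 3 → ℤ, (∀ i, |a i| ≤ R) →
        p (x + dot α a) = p x - a} ≤
        ENNReal.ofReal (4 * (3 * R * (∏ i, q i : ℕ) * δ)) +
          ∑ i, ENNReal.ofReal (2 * R / q i) := by
  classical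
  set Q : ℕ := ∏ i, q i with hQd
  set P : Fin 3 → ℕ := fun i => ∏ l ∈ Finset.univ.erase i, q l with hPd
  have hQP : ∀ i, Q = q i * P i := fun i =>
    (Finset.mul_prod_erase Finset.univ q (Finset.mem_univ i)).symm
  have hP : ∀ i, 0 < P i := fun i => Finset.prod_pos fun l _ => hq l
  have hQ : 0 < Q := Finset.prod_pos fun l _ => hq l
  have hQ' : (0 : ℝ) < Q := by exact_mod_cast hQ
  have hδ0 : 0 ≤ δ := (abs_nonneg _).trans (hδ 0)
  set u : Fin 3 → ℤ := fun i => r i * P i with hud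
  have hcu : ∀ i, IsCoprime (u i) (q i) := by
    intro i
    refine (hr i).mul_left ?_
    rw [Nat.isCoprime_iff_coprime]
    exact Nat.Coprime.prod_left fun l hl => hcop (Finset.ne_of_mem_erase hl)
  have hv : ∀ i, ∃ v : ℤ, u i * v ≡ 1 [ZMOD q i] := by
    intro i
    obtain ⟨a, b, hab⟩ := hcu i
    exact ⟨a, Int.modEq_iff_dvd.2 ⟨b, by linear_combination -hab⟩⟩
  choose v hv using hv
  have hdiv : ∀ i l, l ≠ i → (q i : ℤ) ∣ u l := by
    intro i l hl
    refine Dvd.dvd.mul_left ?_ _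
    exact_mod_cast Finset.dvd_prod_of_mem q (Finset.mem_erase.2 ⟨hl.symm, Finset.mem_univ i⟩)
  refine ⟨fun x i => -((⌊(Q : ℝ) * x⌋ * v i) % q i), ?_, ?_, ?_, ?_⟩
  · have := (aec_floor_affine Q 0 hQ'.ne').comp (fun j : ℤ => fun i => -((j * v i) % q i))
    simpa using this
  · intro x
    funext i
    have : ⌊(Q : ℝ) * (x + 1)⌋ = ⌊(Q : ℝ) * x⌋ + Q := by
      rw [mul_add, mul_one, Int.floor_add_natCast]
    simp only [this]
    congr 1
    refine Int.ModEq.eq (Int.modEq_iff_dvd.2 ⟨-(P i * v i), ?_⟩)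
    rw [hQP i]
    push_cast
    ring
  · refine ⟨Q, fun x i => ?_⟩
    have hq' : (0 : ℤ) < q i := by exact_mod_cast hq i
    have h0 := Int.emod_nonneg (⌊(Q : ℝ) * x⌋ * v i) hq'.ne'
    have h1 := Int.emod_lt_of_pos (⌊(Q : ℝ) * x⌋ * v i) hq'
    have h2 : q i ≤ Q := by rw [hQP i]; exact Nat.le_mul_of_pos_right _ (hP i)
    rw [abs_neg, abs_of_nonneg h0]
    omega
  · set η : ℝ := 3 * R * Q * δ with hη
    have hη0 : 0 ≤ η := by positivity
    have hsub : {x ∈ Ico (0 : ℝ) 1 | ¬ ∀ a : Fin 3 → ℤ, (∀ i, |a i| ≤ R) →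
        (fun i => -((⌊(Q : ℝ) * (x + dot α a)⌋ * v i) % q i)) =
          (fun i => -((⌊(Q : ℝ) * x⌋ * v i) % q i)) - a} ⊆
        {x ∈ Ico (0 : ℝ) 1 | ¬ (η < Int.fract (Q * x) ∧ Int.fract (Q * x) + η < 1)} ∪
        ⋃ i ∈ (Finset.univ : Finset (Fin 3)), {x ∈ Ico (0 : ℝ) 1 |
          ¬ ((R : ℤ) ≤ (⌊((q i * P i : ℕ) : ℝ) * x⌋ * v i) % q i ∧
          (⌊((q i * P i : ℕ) : ℝ) * x⌋ * v i) % q i + R < q i)} := by
      rintro x ⟨hx0, hx⟩
      by_contra hcon
      simp only [mem_union, mem_ofPred_eq, mem_iUnion, not_or, not_and, not_exists,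
        Finset.mem_univ, ← hQP] at hcon
      obtain ⟨hc1, hc2⟩ := hcon
      have hc1 := hc1 hx0
      apply hx
      intro a ha
      have hfl : ⌊(Q : ℝ) * (x + dot α a)⌋ = ⌊(Q : ℝ) * x⌋ + ∑ l, a l * u l := by
        have e1 : ∀ l, (Q : ℝ) * ((a l : ℝ) * α l) =
            (a l * u l : ℤ) + (a l : ℝ) * Q * (α l - r l / q l) := by
          intro l
          have : (0 : ℝ) < q l := by exact_mod_cast hq l
          simp only [hud, hQP l]
          push_cast
          field_simp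
          ring
        have e2 : (Q : ℝ) * (x + dot α a) = Q * x + ∑ l, (a l : ℝ) * Q * (α l - r l / q l) +
            ((∑ l, a l * u l : ℤ) : ℝ) := by
          rw [mul_add, dot, Finset.mul_sum]
          simp only [e1, Finset.sum_add_distrib]
          push_cast
          ring
        have e3 : |∑ l, (a l : ℝ) * Q * (α l - r l / q l)| ≤ η := by
          refine (Finset.abs_sum_le_sum_abs _ _).trans ?_
          have : ∀ l, |(a l : ℝ) * Q * (α l - r l / q l)| ≤ R * Q * δ := by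
            intro l
            rw [abs_mul, abs_mul, abs_of_pos hQ']
            have h1 : |(a l : ℝ)| ≤ R := by exact_mod_cast ha l
            exact mul_le_mul (mul_le_mul_of_nonneg_right h1 hQ'.le) (hδ l) (abs_nonneg _)
              (by positivity)
          refine (Finset.sum_le_sum fun l _ => this l).trans (le_of_eq ?_)
          simp [hη]; ring
        rw [e2, Int.floor_add_intCast]
        congr 1
        have hc1' : η < Int.fract ((Q : ℝ) * x) ∧ Int.fract ((Q : ℝ) * x) + η < 1 := by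
          by_contra h
          exact h ⟨by_contra fun h1 => by tauto, by_contra fun h1 => by tauto⟩
        rw [Int.fract] at hc1'
        have := abs_le.1 e3
        rw [Int.floor_eq_iff]
        constructor <;> linarith [hc1'.1, hc1'.2, this.1, this.2]
      funext i
      have hq' : (0 : ℤ) < q i := by exact_mod_cast hq i
      have hc := hc2 i trivial hx0
      have hc' : (R : ℤ) ≤ (⌊(Q : ℝ) * x⌋ * v i) % q i ∧
          (⌊(Q : ℝ) * x⌋ * v i) % q i + R < q i := by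
        by_contra h
        exact h ⟨by_contra fun h1 => by tauto, by_contra fun h1 => by tauto⟩
      have hai := abs_le.1 (ha i)
      simp only [hfl, Pi.sub_apply]
      have hm : (⌊(Q : ℝ) * x⌋ + ∑ l, a l * u l) * v i ≡
          (⌊(Q : ℝ) * x⌋ * v i) % q i + a i [ZMOD q i] := by
        rw [add_mul]
        refine (Int.mod_modEq _ _).symm.add ?_
        rw [← Finset.add_sum_erase Finset.univ _ (Finset.mem_univ i), add_mul]
        have h1 : a i * u i * v i ≡ a i [ZMOD q i] := by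
          have := (hv i).mul_left (a i)
          rwa [mul_one, ← mul_assoc] at this
        have h2 : (∑ l ∈ Finset.univ.erase i, a l * u l) * v i ≡ 0 [ZMOD q i] := by
          refine Int.modEq_zero_iff_dvd.2 (Dvd.dvd.mul_right ?_ _)
          exact Finset.dvd_sum fun l hl =>
            (hdiv i l (Finset.ne_of_mem_erase hl)).mul_left _
        simpa using h1.add h2
      rw [hm.eq, Int.emod_eq_of_lt (by omega) (by omega)]
      ring
    refine (measure_mono hsub).trans ((measure_union_le _ _).trans (add_le_add ?_ ?_))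
    · exact bad1 Q hQ η hη0
    · refine (measure_biUnion_finset_le _ _).trans (Finset.sum_le_sum fun i _ => ?_)
      exact bad2 (q i) (P i) (hq i) (hP i) (u i) (v i) (hv i) R

theorem liouville_approx (b : ℕ) (hb : 2 ≤ b) (m : ℕ) (hm : 1 ≤ m) :
    ∃ r : ℤ, IsCoprime r ((b ^ (m + 1).factorial : ℕ) : ℤ) ∧
      |liouvilleNumber b - r / ((b ^ (m + 1).factorial : ℕ) : ℝ)| ≤
        1 / (2 ^ (m + 1).factorial) ^ (m + 1) := by
  obtain ⟨p, hp⟩ := LiouvilleNumber.partialSum_eq_rat (m := b) (by omega) m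
  have hlt : m.factorial < (m + 1).factorial := (Nat.factorial_lt (by omega)).2 (by omega)
  obtain ⟨d, hd⟩ : ∃ d, (m + 1).factorial = m.factorial + (d + 1) :=
    ⟨(m + 1).factorial - m.factorial - 1, by omega⟩
  have hb' : (2 : ℝ) ≤ b := by exact_mod_cast hb
  refine ⟨p * b ^ (d + 1) + 1, ?_, ?_⟩
  · push_cast
    refine IsCoprime.pow_right ⟨1, -(p * b ^ d), by ring⟩
  · have h1 := LiouvilleNumber.partialSum_add_remainder (m := b) (by linarith) (m + 1)
    have h2 := LiouvilleNumber.remainder_lt (m + 1) hb'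
    have h3 := LiouvilleNumber.remainder_pos (m := b) (by linarith) (m + 1)
    have h4 : LiouvilleNumber.partialSum b (m + 1) =
        ((p * b ^ (d + 1) + 1 : ℤ) : ℝ) / ((b ^ (m + 1).factorial : ℕ) : ℝ) := by
      rw [LiouvilleNumber.partialSum_succ, hp, hd]
      push_cast
      have : (0 : ℝ) < b := by linarith
      field_simp
      ring
    rw [← h1, ← h4, add_sub_cancel_left, abs_of_pos h3]
    refine h2.le.trans ?_
    gcongr

theorem rokhlin : ∃ α : Fin 3 → ℝ, ∀ (R : ℕ) (ε : ℝ), 0 < ε →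
    ∃ p : ℝ → Fin 3 → ℤ, AEC p ∧ (∀ x, p (x + 1) = p x) ∧ (∃ C : ℕ, ∀ x i, |p x i| ≤ C) ∧
      volume {x ∈ Ico (0 : ℝ) 1 | ¬ ∀ a : Fin 3 → ℤ, (∀ i, |a i| ≤ R) →
        p (x + dot α a) = p x - a} ≤ ENNReal.ofReal ε := by
  let b : Fin 3 → ℕ := ![2, 3, 5]
  have hb : ∀ i, 2 ≤ b i := by intro i; fin_cases i <;> simp [b]
  refine ⟨fun i => liouvilleNumber (b i), fun R ε hε => ?_⟩
  obtain ⟨m, hm5, hm⟩ : ∃ m : ℕ, 5 ≤ m ∧ 366 * R / ε ≤ (2 : ℝ) ^ (m + 1) := by
    obtain ⟨m, hm⟩ := exists_nat_ge (366 * R / ε)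
    refine ⟨m + 5, by omega, hm.trans ?_⟩
    have : m < 2 ^ (m + 5 + 1) := (Nat.lt_two_pow_self).trans_le
      (Nat.pow_le_pow_right (by omega) (by omega))
    exact_mod_cast this.le
  choose r hr1 hr2 using fun i => liouville_approx (b i) (hb i) m (by omega)
  set N := (m + 1).factorial with hN
  have hcop : Pairwise fun i j => Nat.Coprime (b i ^ N) (b j ^ N) := by
    intro i j hij
    refine Nat.Coprime.pow _ _ ?_
    fin_cases i <;> fin_cases j <;> simp_all [b] <;> norm_num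
  obtain ⟨p, h1, h2, h3, h4⟩ := rokhlin_aux (fun i => liouvilleNumber (b i)) (fun i => b i ^ N)
    (fun i => pow_pos (by have := hb i; omega) _) hcop r hr1 _ hr2 R
  refine ⟨p, h1, h2, h3, h4.trans ?_⟩
  have hNm : m + 1 ≤ N := Nat.self_le_factorial _
  have h2m : (0 : ℝ) < 2 ^ (m + 1) := by positivity
  have hA : (((∏ i, b i ^ N : ℕ) : ℝ)) * (1 / (2 ^ N) ^ (m + 1)) ≤ 30 / 2 ^ (m + 1) := by
    have e : (((∏ i, b i ^ N : ℕ) : ℝ)) = 30 ^ N := by
      rw [Fin.prod_univ_three]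
      have e0 : b 0 = 2 := rfl
      have e1 : b 1 = 3 := rfl
      have e2 : b 2 = 5 := rfl
      rw [e0, e1, e2, ← mul_pow, ← mul_pow]
      norm_num
    rw [e, ← pow_mul, mul_comm N, pow_mul, mul_one_div, ← div_pow]
    have h30 : (30 : ℝ) / 2 ^ (m + 1) ≤ 1 := by
      rw [div_le_one h2m]
      have : (2 : ℝ) ^ 5 ≤ 2 ^ (m + 1) := pow_le_pow_right₀ (by norm_num) (by omega)
      linarith
    exact pow_le_of_le_one (by positivity) h30 (by omega)
  have hB : ∀ i, (2 * R / ((b i ^ N : ℕ) : ℝ)) ≤ 2 * R / 2 ^ (m + 1) := by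
    intro i
    have hb' : (2 : ℝ) ≤ b i := by exact_mod_cast hb i
    push_cast
    refine div_le_div_of_nonneg_left (by positivity) h2m ?_
    exact (pow_le_pow_right₀ (by norm_num) hNm).trans (pow_le_pow_left₀ (by norm_num) hb' _)
  rw [← ENNReal.ofReal_sum_of_nonneg (fun i _ => by positivity),
    ← ENNReal.ofReal_add (by positivity) (Finset.sum_nonneg fun i _ => by positivity)]
  refine ENNReal.ofReal_le_ofReal ?_
  have hS := Finset.sum_le_sum (s := Finset.univ) fun i _ => hB i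
  simp only [Finset.sum_const, Finset.card_univ, Fintype.card_fin, nsmul_eq_mul] at hS
  have hR : (0 : ℝ) ≤ R := by positivity
  have hfin : 366 * R / (2 : ℝ) ^ (m + 1) ≤ ε := by
    rw [div_le_iff₀ h2m]
    rw [div_le_iff₀ hε] at hm
    linarith
  have hA' := mul_le_mul_of_nonneg_left hA hR
  have e1 : (R : ℝ) * (30 / 2 ^ (m + 1)) = 30 * (R / 2 ^ (m + 1)) := by ring
  have e2 : 366 * R / (2 : ℝ) ^ (m + 1) = 366 * (R / 2 ^ (m + 1)) := by ring
  have e3 : 2 * R / (2 : ℝ) ^ (m + 1) = 2 * (R / 2 ^ (m + 1)) := by ring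
  push_cast at hS hA' ⊢
  nlinarith

theorem dot_single (α : Fin 3 → ℝ) (i : Fin 3) : dot α (Pi.single i 1) = α i := by
  classical
  rw [dot, Finset.sum_eq_single i]
  · simp
  · intro j _ hj
    simp [hj]
  · simp

theorem ae_of_periodic {P : ℝ → Prop} (hP : ∀ x, P (x + 1) ↔ P x)
    (h : volume {x ∈ Ico (0 : ℝ) 1 | ¬ P x} = 0) : ∀ᵐ x, P x := by
  have hper : Function.Periodic P 1 := fun x => propext (hP x)
  have h1 : ∀ᵐ x : ℝ, x ∉ {x ∈ Ico (0 : ℝ) 1 | ¬ P x} := measure_eq_zero_iff_ae_notMem.1 h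
  have h2 : ∀ n : ℤ, ∀ᵐ x : ℝ, x + (n : ℝ) ∉ {x ∈ Ico (0 : ℝ) 1 | ¬ P x} := fun n =>
    (measurePreserving_add_right volume (n : ℝ)).quasiMeasurePreserving.ae h1
  filter_upwards [ae_all_iff.2 h2] with x hx
  by_contra hc
  apply hx (-⌊x⌋)
  have e : x + ((-⌊x⌋ : ℤ) : ℝ) = Int.fract x := by
    rw [Int.fract]; push_cast; ring
  refine ⟨?_, ?_⟩
  · rw [e]; exact ⟨Int.fract_nonneg x, Int.fract_lt_one x⟩
  · have := hper.int_mul (-⌊x⌋) x
    rw [mul_one] at this
    rwa [this]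

theorem tower : ∃ (α : Fin 3 → ℝ) (π : ℕ → ℝ → Fin 3 → ℤ), (∀ m, AEC (π m)) ∧
    (∀ m x, π m (x + 1) = π m x) ∧
    (∀ m x i, π m (x + α i) = π m x - Pi.single i 1 →
      π (m + 1) (x + α i) = π (m + 1) x - Pi.single i 1) ∧
    ∀ᵐ x, ∀ i, ∃ m, π m (x + α i) = π m x - Pi.single i 1 := by
  classical
  obtain ⟨α, hα⟩ := rokhlin
  have hα' := fun (R m : ℕ) => hα R (1 / ((m : ℝ) + 1)) (by positivity)
  choose p hp1 hp2 hp3 hp4 using hα'
  choose C hC using hp3
  let S : ℕ → (ℝ → Fin 3 → ℤ) × ℕ := fun m => Nat.rec (fun _ => 0, 0)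
    (fun m s => (fun x => s.1 x + p (s.2 + 1) m (x + dot α (s.1 x)), s.2 + C (s.2 + 1) m)) m
  have hS1 : ∀ m x, (S (m + 1)).1 x =
      (S m).1 x + p ((S m).2 + 1) m (x + dot α ((S m).1 x)) := fun m x => rfl
  have hS2 : ∀ m, (S (m + 1)).2 = (S m).2 + C ((S m).2 + 1) m := fun m => rfl
  have hbd : ∀ m x i, |(S m).1 x i| ≤ (S m).2 := by
    intro m
    induction m with
    | zero => intro x i; simp [S]
    | succ m ih =>
      intro x i
      rw [hS1, hS2]
      push_cast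
      exact (abs_add_le _ _).trans (add_le_add (ih x i) (hC _ _ _ _))
  have hper : ∀ m x, (S m).1 (x + 1) = (S m).1 x := by
    intro m
    induction m with
    | zero => intro x; rfl
    | succ m ih =>
      intro x
      rw [hS1, hS1, ih, add_right_comm x 1, hp2]
  refine ⟨α, fun m => (S m).1, ?_, hper, ?_, ?_⟩
  · intro m
    induction m with
    | zero => exact AEC.const _
    | succ m ih =>
      have h1 : ∀ a : Fin 3 → ℤ, AEC (fun x => a + p ((S m).2 + 1) m (x + dot α a)) := by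
        intro a
        exact ((hp1 _ _).precomp (by fun_prop)
          (measurePreserving_add_right volume (dot α a)).quasiMeasurePreserving).comp
            (fun t => a + t)
      exact AEC.select ih h1
  · intro m x i h
    simp only at h ⊢
    rw [hS1, hS1, h, dot_sub, dot_single]
    rw [show x + α i + (dot α ((S m).1 x) - α i) = x + dot α ((S m).1 x) by ring]
    abel
  · refine ae_of_periodic (fun x => ?_) ?_
    · simp only [add_right_comm x 1, hper]
    · refine le_antisymm ?_ zero_le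
      have key : ∀ m : ℕ, volume {x ∈ Ico (0 : ℝ) 1 |
          ¬ ∀ i, ∃ m, (S m).1 (x + α i) = (S m).1 x - Pi.single i 1} ≤
          ENNReal.ofReal (1 / ((m : ℝ) + 1)) := by
        intro m
        refine le_trans (measure_mono ?_) (hp4 ((S m).2 + 1) m)
        rintro x ⟨hx0, hx⟩
        refine ⟨hx0, fun hg => hx fun i => ⟨m + 1, ?_⟩⟩
        rw [hS1, hS1, hg ((S m).1 x) fun j => (hbd m x j).trans (by push_cast; omega)]
        have h2 := hg (Pi.single i 1 + (S m).1 (x + α i)) fun j => by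
          have := hbd m (x + α i) j
          have h3 : |(Pi.single i (1 : ℤ) : Fin 3 → ℤ) j| ≤ 1 := by
            by_cases hij : j = i
            · subst hij; simp
            · simp [hij]
          rw [Pi.add_apply]
          refine (abs_add_le _ _).trans ?_
          push_cast
          omega
        rw [dot_add, dot_single, ← add_assoc] at h2
        rw [h2]
        abel
      have ht : Tendsto (fun m : ℕ => ENNReal.ofReal (1 / ((m : ℝ) + 1))) atTop (𝓝 0) := by
        simpa using ENNReal.tendsto_ofReal tendsto_one_div_add_atTop_nhds_zero_nat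
      exact ge_of_tendsto' ht key

end Pool.Agent.H173Z.Canc
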